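import Pool.Agent.H334R5.Ph.Stmts
import Pool.Agent.H334R5.Nd.Main
import Pool.Agent.H550R2.Iso.Raw

/-!
# Task MachSig: simulation of search machines with a refuter in a level of the hierarchy (helper121)
-/

set_option autoImplicit false

namespace Pool.Agent.H334R5.Ph.MSig

open Pool.Agent.NPC
open Pool.Agent.H334R5.Nd (Pattern blk)
open Pool.Agent.H334R5.Ps (Mach)
open Pool.Agent.H334R5.Cnt (usz bits_poly fpoly_of_poly)

attribute [local instance] Mach.enc

variable {A L : Set (List Bool)} {q : Polynomial ℕ} (M : Mach A L q)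

/-- the answer: the number of the entries `true` of a block -/
def ka (b : ℕ) (r x : List Bool) (s : M.S) (t : ℕ) : ℕ :=
  min ((blk b r t).filter (fun c => c)).length (M.Q x s).length

/-- one step -/
def stp (b : ℕ) (r x : List Bool) (s : M.S) (t : ℕ) : M.S := M.step x s (ka M b r x s t)

/-- the state after `T` steps -/
def st (b : ℕ) (r x : List Bool) (T : ℕ) : M.S := (List.range T).foldl (stp M b r x) (M.init x)

/-- the state after `min N T` steps -/
def stc (N b : ℕ) (r x : List Bool) (T : ℕ) : M.S :=
  (List.range N).foldl (fun s i => if i < T then stp M b r x s i else s) (M.init x)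

theorem st_succ (b : ℕ) (r x : List Bool) (T : ℕ) :
    st M b r x (T + 1) = stp M b r x (st M b r x T) T := by
  unfold st
  rw [List.range_succ, List.foldl_append]
  rfl

theorem stc_eq (N b : ℕ) (r x : List Bool) (T : ℕ) : stc M N b r x T = st M b r x (min N T) := by
  induction N with
  | zero => simp [stc, st]
  | succ N ih =>
    have h1 : stc M (N + 1) b r x T =
        if N < T then stp M b r x (stc M N b r x T) N else stc M N b r x T := by
      unfold stc
      rw [List.range_succ, List.foldl_append]
      rfl
    rw [h1, ih]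
    split_ifs with h
    · rw [min_eq_left h.le, min_eq_left (Nat.succ_le_of_lt h), st_succ]
    · rw [min_eq_right (not_lt.1 h), min_eq_right ((not_lt.1 h).trans (Nat.le_succ N))]

theorem st_rec (b : ℕ) (r x : List Bool) (T : ℕ) :
    st M b r x T = Nat.rec (M.init x)
      (fun t s => M.step x s (ka M b r x (st M b r x t) t)) T := by
  induction T with
  | zero => rfl
  | succ T ih =>
    rw [st_succ]
    show M.step x (st M b r x T) _ = M.step x _ _
    rw [← ih]

theorem foldl_sh (N b : ℕ) (r x : List Bool) (T : ℕ) (l : List ℕ) (s : M.S) (hs : M.Sh x s) :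
    M.Sh x (l.foldl (fun s i => if i < T then stp M b r x s i else s) s) := by
  induction l generalizing s with
  | nil => exact hs
  | cons t l ih =>
    rw [List.foldl_cons]
    apply ih
    split_ifs
    · exact M.sh_step _ _ _ hs
    · exact hs

theorem st_sh (b : ℕ) (r x : List Bool) (T : ℕ) : M.Sh x (st M b r x T) := by
  induction T with
  | zero => exact M.sh0 x
  | succ T ih =>
    rw [st_succ]
    exact M.sh_step _ _ _ ih

theorem st_congr {b : ℕ} {r r' x : List Bool} {T : ℕ}
    (h : ∀ t < T, blk b r t = blk b r' t) : st M b r x T = st M b r' x T := by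
  induction T with
  | zero => rfl
  | succ T ih =>
    rw [st_succ, st_succ, ih (fun t ht => h t (by omega))]
    unfold stp ka
    rw [h T (by omega)]

/-- the answers are correct -/
def OK (R : List (List Bool) → ℕ → Prop) (b : ℕ) (r x : List Bool) (t : ℕ) : Prop :=
  M.need x (st M b r x t) = true →
    R (M.Q x (st M b r x t)) (ka M b r x (st M b r x t) t)

theorem st_inv {R : List (List Bool) → ℕ → Prop}
    (hR : ∀ (L : List (List Bool)) (j : ℕ), R L j → ¬ Pattern A L j) {b : ℕ} {r x : List Bool}
    {T : ℕ} (h : ∀ t < T, OK M R b r x t) : M.Inv x (st M b r x T) := by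
  induction T with
  | zero => exact M.inv0 x
  | succ T ih =>
    have hi := ih (fun t ht => h t (by omega))
    have hs := st_sh M b r x T
    rw [st_succ]
    show M.Inv x (M.step x (st M b r x T) _)
    cases hn : M.need x (st M b r x T) with
    | false => exact M.inv_n _ _ _ hs hi hn
    | true => exact M.inv_q _ _ _ hs hi hn (min_le_right _ _) (hR _ _ (h T (by omega) hn))

theorem filter_replicate_length (j m : ℕ) :
    ((List.replicate j true ++ List.replicate m false).filter (fun c => c)).length = j := by
  rw [List.filter_append]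
  simp

/-- good guesses exist -/
theorem st_exists {R : List (List Bool) → ℕ → Prop}
    (hR : ∀ (L : List (List Bool)) (j : ℕ), R L j → ¬ Pattern A L j)
    (hC : ∀ (L : List (List Bool)) (n : ℕ), (∀ x ∈ L, x.length ≤ n) →
      q.eval n ≤ L.length → (∃ j, Pattern A L j) → ∃ j ≤ L.length, R L j)
    {b : ℕ} {x : List Bool} (hb : ∀ s, M.Sh x s → (M.Q x s).length ≤ b) (T : ℕ) :
    ∃ r : List Bool, r.length = T * b ∧ ∀ t < T, OK M R b r x t := by
  induction T with
  | zero => exact ⟨[], by simp, fun t ht => absurd ht (Nat.not_lt_zero t)⟩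
  | succ T ih =>
    obtain ⟨r, hr, h⟩ := ih
    have hs := st_sh M b r x T
    have hi := st_inv M hR h
    have key : ∀ j ≤ b, (M.need x (st M b r x T) = true →
        R (M.Q x (st M b r x T)) (min j (M.Q x (st M b r x T)).length)) →
        ∃ r : List Bool, r.length = (T + 1) * b ∧ ∀ t < T + 1, OK M R b r x t := by
      intro j hj hk
      set w : List Bool := List.replicate j true ++ List.replicate (b - j) false with hw
      have hwl : w.length = b := by
        rw [hw, List.length_append, List.length_replicate, List.length_replicate]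
        omega
      refine ⟨r ++ w, by rw [List.length_append, hr, hwl]; ring, ?_⟩
      have hblk' : ∀ t < T, blk b (r ++ w) t = blk b r t := by
        intro t ht
        unfold blk
        have h1 : (t + 1) * b ≤ T * b := Nat.mul_le_mul_right b (by omega)
        rw [add_mul, one_mul] at h1
        rw [List.drop_append_of_le_length (by omega), List.take_append_of_le_length
          (by rw [List.length_drop]; omega)]
      have hc : ∀ t ≤ T, st M b (r ++ w) x t = st M b r x t := fun t ht =>
        st_congr M fun t' ht' => hblk' t' (by omega)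
      have hblk : blk b (r ++ w) T = w := by
        unfold blk
        rw [← hr, List.drop_left' rfl, ← hwl, List.take_length]
      intro t ht
      rcases Nat.lt_succ_iff_lt_or_eq.1 ht with h1 | h1
      · have h2 := h t h1
        unfold OK ka at h2 ⊢
        rw [hc t h1.le, hblk' t h1]
        exact h2
      · subst h1
        unfold OK ka
        rw [hc t le_rfl, hblk, hw, filter_replicate_length]
        exact hk
    cases hn : M.need x (st M b r x T) with
    | false => exact key 0 (Nat.zero_le b) (fun h' => by rw [hn] at h'; cases h')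
    | true =>
      obtain ⟨j, hj, hj'⟩ := hC _ _ (M.q_len x _ hs) (M.q_card x _ hs hn) (M.q_pat x _ hs hi hn)
      exact key j (hj.trans (hb _ hs)) (fun _ => by rwa [min_eq_left hj])

theorem poly_ka {α : Type} [TEnc α] {b : α → ℕ} {r x : α → List Bool} {s : α → M.S} {t : α → ℕ}
    (pb : Poly b) (pr : Poly r) (px : Poly x) (ps : Poly s) (pt : Poly t) :
    Poly (fun a => ka M (b a) (r a) (x a) (s a) (t a)) := by
  unfold ka blk
  refine Poly.min (Poly.length (Poly.filter (p := fun (_ : α) (c : Bool) => c)
    (Clo.poly_take (Clo.poly_drop pr (Poly.mul pt pb)) pb) (Poly.snd Poly.id))) (Poly.length ?_)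
  exact Poly.comp (g := fun z : List Bool × M.S => M.Q z.1 z.2) (f := fun a => (x a, s a)) M.p_Q
    (Poly.pair px ps)

theorem poly_stc :
    Poly (fun z : (List Bool × List Bool) × ℕ =>
      stc M (M.T.eval z.1.1.length) (M.B.eval z.1.1.length) z.1.2 z.1.1 z.2) := by
  have uX : ∀ (P : Polynomial ℕ),
      UPoly (fun z : (List Bool × List Bool) × ℕ => P.eval z.1.1.length) :=
    fun P => (UPoly.length (Poly.fst (Poly.fst Poly.id))).eval P
  unfold stc
  refine Poly.foldl (l := fun z : (List Bool × List Bool) × ℕ =>
      List.range (M.T.eval z.1.1.length))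
    (s := fun z : (List Bool × List Bool) × ℕ => M.init z.1.1)
    (F := fun z s i => if i < z.2 then stp M (M.B.eval z.1.1.length) z.1.2 z.1.1 s i else s)
    (uX M.T).range (M.p_init.comp (Poly.fst (Poly.fst Poly.id))) ?_ M.B ?_
  · have hx : Poly (fun p : ((List Bool × List Bool) × ℕ) × M.S × ℕ => p.1.1.1) :=
      Poly.fst (Poly.fst (Poly.fst Poly.id))
    have hr : Poly (fun p : ((List Bool × List Bool) × ℕ) × M.S × ℕ => p.1.1.2) :=
      Poly.snd (Poly.fst (Poly.fst Poly.id))
    have hT : Poly (fun p : ((List Bool × List Bool) × ℕ) × M.S × ℕ => p.1.2) :=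
      Poly.snd (Poly.fst Poly.id)
    have hs : Poly (fun p : ((List Bool × List Bool) × ℕ) × M.S × ℕ => p.2.1) :=
      Poly.fst (Poly.snd Poly.id)
    have hi : Poly (fun p : ((List Bool × List Bool) × ℕ) × M.S × ℕ => p.2.2) :=
      Poly.snd (Poly.snd Poly.id)
    have hb : Poly (fun p : ((List Bool × List Bool) × ℕ) × M.S × ℕ =>
        M.B.eval p.1.1.1.length) := ((UPoly.length hx).eval M.B).toPoly
    refine Poly.ite (Poly.decide_lt hi hT) ?_ hs
    unfold stp
    exact Poly.comp (g := fun z : List Bool × M.S × ℕ => M.step z.1 z.2.1 z.2.2)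
      (f := fun p : ((List Bool × List Bool) × ℕ) × M.S × ℕ => (p.1.1.1, p.2.1,
        ka M (M.B.eval p.1.1.1.length) p.1.1.2 p.1.1.1 p.2.1 p.2.2)) M.p_step
      (Poly.pair hx (Poly.pair hs (poly_ka M hb hr hx hs hi)))
  · intro z k _
    have hsh := foldl_sh M 0 (M.B.eval z.1.1.length) z.1.2 z.1.1 z.2
      ((List.range (M.T.eval z.1.1.length)).take k) (M.init z.1.1) (M.sh0 _)
    refine (M.sh_sz _ _ hsh).trans (eval_mono M.B ?_)
    obtain ⟨⟨x, r⟩, t⟩ := z
    rw [sz_pair, sz_pair]
    have := length_lt_sz x
    simp only
    omega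

end Pool.Agent.H334R5.Ph.MSig

namespace Pool.Agent.H334R5.Ph

open Pool.Agent.NPC
open Pool.Agent.H334R5.Nd (Pattern blk)
open Pool.Agent.H334R5.Ps (Mach)
open MSig

attribute [local instance] Mach.enc

theorem sig_univ_empty_MSig (k : ℕ) : Sig k Set.univ ∧ Sig k ∅ := by
  induction k with
  | zero =>
    constructor
    · exact ⟨fun _ => [true], PIso.poly_iff.1 (NPC.Poly.const [true]), fun x => by simp⟩
    · exact ⟨fun _ => [false], PIso.poly_iff.1 (NPC.Poly.const [false]), fun x => by simp⟩
  | succ k ih =>
    constructor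
    · refine ⟨Set.univ, 0, ?_, fun x => ?_⟩
      · rw [Set.compl_univ]
        exact ih.2
      · simp only [Set.mem_univ, true_iff, and_true]
        exact ⟨[], by simp⟩
    · refine ⟨∅, 0, ?_, fun x => ?_⟩
      · rw [Set.compl_empty]
        exact ih.1
      · simp

theorem taskMachSig : TaskMachSig := by
  rintro hCase hAny hAll hEx - k A L q R hR ⟨M⟩
  -- the set of the empty word and the correct answers
  have h1 : Sig (k + 1) {w | (decide (w = []) = true ∧ w ∈ (Set.univ : Set (List Bool))) ∨
      (decide (w = []) = false ∧ w ∈ lang fun p : List (List Bool) × ℕ => R p.1 p.2)} :=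
    hCase (k + 1) Set.univ _ (fun w => decide (w = [])) (fun w => w) (fun w => w)
      (Poly.decide_eq Poly.id (NPC.Poly.const [])) Poly.id Poly.id
      (sig_univ_empty_MSig (k + 1)).1 hR.sig
  set L2 : Set (List Bool) := {w | (decide (w = []) = true ∧ w ∈ (Set.univ : Set (List Bool))) ∨
      (decide (w = []) = false ∧ w ∈ lang fun p : List (List Bool) × ℕ => R p.1 p.2)} with hL2
  have hL2n : [] ∈ L2 := by simp [hL2]
  have hbne : ∀ p : List (List Bool) × ℕ, bits p ≠ [] := by
    intro p h
    have h2 := bits_length p
    rw [h, List.length_nil] at h2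
    have h3 := sz_pos p
    omega
  have hL2b : ∀ p : List (List Bool) × ℕ, bits p ∈ L2 ↔ R p.1 p.2 := by
    intro p
    have h2 := hbne p
    simp [hL2, h2, bits_mem_lang]
  -- the state
  have pst := poly_stc M
  have pst2 : Poly (fun p : List Bool × ℕ => stc M (M.T.eval (unpair p.1).1.length)
      (M.B.eval (unpair p.1).1.length) (unpair p.1).2 (unpair p.1).1 p.2) :=
    Poly.comp (g := fun z : (List Bool × List Bool) × ℕ =>
      stc M (M.T.eval z.1.1.length) (M.B.eval z.1.1.length) z.1.2 z.1.1 z.2)
      (f := fun p : List Bool × ℕ => (unpair p.1, p.2)) pst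
      (Poly.pair (poly_unpair.comp (Poly.fst Poly.id)) (Poly.snd Poly.id))
  have px : Poly (fun p : List Bool × ℕ => (unpair p.1).1) :=
    Poly.fst (poly_unpair.comp (Poly.fst Poly.id))
  have pr : Poly (fun p : List Bool × ℕ => (unpair p.1).2) :=
    Poly.snd (poly_unpair.comp (Poly.fst Poly.id))
  have pb : Poly (fun p : List Bool × ℕ => M.B.eval (unpair p.1).1.length) :=
    ((UPoly.length px).eval M.B).toPoly
  -- the queries
  set h : List Bool → ℕ → List Bool := fun z t =>
    if M.need (unpair z).1 (stc M (M.T.eval (unpair z).1.length)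
        (M.B.eval (unpair z).1.length) (unpair z).2 (unpair z).1 t) = true then
      bits ((M.Q (unpair z).1 (stc M (M.T.eval (unpair z).1.length)
          (M.B.eval (unpair z).1.length) (unpair z).2 (unpair z).1 t),
        ka M (M.B.eval (unpair z).1.length) (unpair z).2 (unpair z).1
          (stc M (M.T.eval (unpair z).1.length)
            (M.B.eval (unpair z).1.length) (unpair z).2 (unpair z).1 t) t) :
        List (List Bool) × ℕ) else [] with hh
  have ph : Poly (fun p : List Bool × ℕ => h p.1 p.2) := by
    refine Poly.ite (Poly.decide_bool ?_) (Cnt.bits_poly.comp (Poly.pair ?_ ?_))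
      (NPC.Poly.const [])
    · exact Poly.comp (g := fun z : List Bool × M.S => M.need z.1 z.2)
        (f := fun p : List Bool × ℕ => ((unpair p.1).1, stc M (M.T.eval (unpair p.1).1.length)
          (M.B.eval (unpair p.1).1.length) (unpair p.1).2 (unpair p.1).1 p.2)) M.p_need
        (Poly.pair px pst2)
    · exact Poly.comp (g := fun z : List Bool × M.S => M.Q z.1 z.2)
        (f := fun p : List Bool × ℕ => ((unpair p.1).1, stc M (M.T.eval (unpair p.1).1.length)
          (M.B.eval (unpair p.1).1.length) (unpair p.1).2 (unpair p.1).1 p.2)) M.p_Q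
        (Poly.pair px pst2)
    · exact poly_ka M pb pr px pst2 (Poly.snd Poly.id)
  have h3 : Sig (k + 1) {z | ∀ t < M.T.eval (unpair z).1.length, h z t ∈ L2} :=
    hAll hCase hAny (k + 1) L2 (fun z => M.T.eval (unpair z).1.length) h
      ((UPoly.length (Poly.fst poly_unpair)).eval M.T) ph h1
  -- the output
  set c : List Bool → Bool := fun z => M.out (unpair z).1
    (stc M (M.T.eval (unpair z).1.length) (M.B.eval (unpair z).1.length) (unpair z).2
      (unpair z).1 (M.T.eval (unpair z).1.length)) with hc
  have pc : Poly c := by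
    have h4 : Poly (fun z : List Bool => stc M (M.T.eval (unpair z).1.length)
        (M.B.eval (unpair z).1.length) (unpair z).2 (unpair z).1
          (M.T.eval (unpair z).1.length)) :=
      Poly.comp (g := fun p : List Bool × ℕ => stc M (M.T.eval (unpair p.1).1.length)
        (M.B.eval (unpair p.1).1.length) (unpair p.1).2 (unpair p.1).1 p.2)
        (f := fun z : List Bool => (z, M.T.eval (unpair z).1.length)) pst2
        (Poly.pair Poly.id ((UPoly.length (Poly.fst poly_unpair)).eval M.T).toPoly)
    exact Poly.comp (g := fun z : List Bool × M.S => M.out z.1 z.2)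
      (f := fun z : List Bool => ((unpair z).1, stc M (M.T.eval (unpair z).1.length)
        (M.B.eval (unpair z).1.length) (unpair z).2 (unpair z).1
          (M.T.eval (unpair z).1.length))) M.p_out (Poly.pair (Poly.fst poly_unpair) h4)
  have h5 := hCase (k + 1) _ ∅ c (fun z => z) (fun z => z) pc Poly.id Poly.id h3
    (sig_univ_empty_MSig (k + 1)).2
  have h6 := hEx hCase k _ (M.T * M.B) h5
  convert h6 using 1
  ext x
  simp only [Set.mem_setOf_eq, Set.mem_empty_iff_false, and_false, or_false]
  -- the test for a pair
  have hkey : ∀ r : List Bool, (c (pairBits x r) = true ∧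
      ∀ t < M.T.eval (unpair (pairBits x r)).1.length, h (pairBits x r) t ∈ L2) ↔
      (M.out x (st M (M.B.eval x.length) r x (M.T.eval x.length)) = true ∧
        ∀ t < M.T.eval x.length, OK M R (M.B.eval x.length) r x t) := by
    intro r
    simp only [hc, hh, unpair_pairBits, stc_eq, min_self]
    refine and_congr Iff.rfl (forall_congr' fun t => ?_)
    constructor
    · intro h7 ht hn
      have h8 := h7 ht
      rw [min_eq_right ht.le] at h8
      rw [if_pos hn, hL2b] at h8
      exact h8
    · intro h7 ht
      rw [min_eq_right ht.le]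
      split_ifs with hn
      · rw [hL2b]
        exact h7 ht hn
      · exact hL2n
  constructor
  · intro hx
    obtain ⟨r, hr, hok⟩ := st_exists M (x := x) hR.sound hR.complete (b := M.B.eval x.length)
      (fun s hs => ((length_lt_sz _).le.trans (M.q_sz x s hs))) (M.T.eval x.length)
    refine ⟨r, by rw [Polynomial.eval_mul, hr], ?_⟩
    rw [hkey]
    refine ⟨?_, hok⟩
    have hi := st_inv M hR.sound hok
    rw [st_rec] at hi ⊢
    exact (M.fin x _ hi).2 hx
  · rintro ⟨r, -, hr⟩
    rw [hkey] at hr
    obtain ⟨ho, hok⟩ := hr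
    have hi := st_inv M hR.sound hok
    rw [st_rec] at hi ho
    exact (M.fin x _ hi).1 ho

end Pool.Agent.H334R5.Ph
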