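import Pool.Agent.H334R5.Ph.Final
import Pool.Agent.H334R5.Ph.TaskMachSig
import Pool.Agent.H334R5.Ps.Final
import Pool.Agent.H334R5.Ps.Conv

/-!
# The polynomial hierarchy and polynomial space
-/

set_option autoImplicit false

namespace Pool.Agent.H334R5.Ph

open Pool.Agent.NPC
open Pool.Agent.H623R2.PS (InPSPACE PSPACEHard)
open Pool.Agent.H334R5.Nd (Pattern)
open Pool.Agent.H334R5.Ps (taskMach inPSPACE_compl)

/-- A refuter for a set to which its complement reduces. -/
theorem refuter2_of_sig {k : ℕ} {A : Set (List Bool)} (hA : Sig k A) (hr : Reduces Aᶜ A) :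
    ∃ (q : Polynomial ℕ) (R : List (List Bool) → ℕ → Prop), SigRefuter2 k A q R := by
  obtain ⟨f, hf, hfA⟩ := hr
  have pf : Poly f := PIso.poly_iff.2 hf
  refine ⟨1, fun L j => ∃ x, L.head? = some x ∧ ((j = 0 ∧ x ∈ A) ∨ (j = L.length ∧ x ∉ A)),
    ?_, ?_, ?_⟩
  · set c : List Bool → Bool := fun z => (unbits (List (List Bool) × ℕ) z).elim false
      (fun t => decide (t.1 ≠ []) && (decide (t.2 = 0) || decide (t.2 = t.1.length))) with hc
    set g : List Bool → List Bool := fun z => (unbits (List (List Bool) × ℕ) z).elim []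
      (fun t => if t.2 = 0 then t.1.head?.getD [] else f (t.1.head?.getD [])) with hg
    have pc : Poly c := by
      refine Poly.optElim (o := fun z : List Bool => unbits (List (List Bool) × ℕ) z)
        (g := fun _ => false) (h := fun _ t => decide (t.1 ≠ []) &&
          (decide (t.2 = 0) || decide (t.2 = t.1.length)))
        poly_unbits (NPC.Poly.const _) ?_
      have h1 : Poly (fun p : List Bool × List (List Bool) × ℕ => p.2.1) :=
        Poly.fst (Poly.snd Poly.id)
      have h2 : Poly (fun p : List Bool × List (List Bool) × ℕ => p.2.2) :=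
        Poly.snd (Poly.snd Poly.id)
      refine Poly.and ?_ (Poly.or (Poly.decide_eq h2 (NPC.Poly.const 0))
        (Poly.decide_eq h2 (Poly.length h1)))
      exact (Poly.not (Poly.decide_eq h1 (NPC.Poly.const []))).congr fun p => by simp
    have pg : Poly g := by
      refine Poly.optElim (o := fun z : List Bool => unbits (List (List Bool) × ℕ) z)
        (g := fun _ => []) (h := fun _ t => if t.2 = 0 then t.1.head?.getD []
          else f (t.1.head?.getD [])) poly_unbits (NPC.Poly.const _) ?_
      have hh : Poly (fun p : List Bool × List (List Bool) × ℕ => p.2.1.head?.getD []) :=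
        (Poly.optElim (o := fun p : List Bool × List (List Bool) × ℕ => p.2.1.head?)
          (g := fun _ => []) (h := fun _ l => l) (Poly.head? (Poly.fst (Poly.snd Poly.id)))
          (NPC.Poly.const _) (Poly.snd Poly.id)).congr fun p => by
            cases p.2.1.head? <;> rfl
      exact Poly.ite (Poly.decide_eq (Poly.snd (Poly.snd Poly.id)) (NPC.Poly.const 0)) hh
        (pf.comp hh)
    have h := sig_and taskCase pc pg hA
    convert h using 1
    ext z
    rw [mem_lang_iff]
    simp only [hc, hg, Set.mem_setOf_eq]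
    cases hz : unbits (List (List Bool) × ℕ) z with
    | none => simp
    | some t =>
      obtain ⟨L, j⟩ := t
      cases L with
      | nil => simp
      | cons x L =>
        simp only [Option.some.injEq, exists_eq_left', List.head?_cons, Option.elim_some,
          Option.getD_some, ne_eq, reduceCtorEq, not_false_eq_true, decide_true, Bool.true_and,
          Bool.or_eq_true, decide_eq_true_eq, List.length_cons]
        have e1 := hfA x
        rw [Set.mem_compl_iff] at e1
        by_cases hj : j = 0
        · subst hj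
          simp
        · simp only [hj, false_and, false_or, if_false, ← e1]
  · rintro L j ⟨x, hx, hj⟩ hp
    have hxL := List.mem_of_mem_head? hx
    rcases hj with ⟨rfl, hxA⟩ | ⟨rfl, hxA⟩
    · exact hp.2.2 x (by rw [List.drop_zero]; exact hxL) hxA
    · exact hxA (hp.2.1 x (by rw [List.take_length]; exact hxL))
  · intro L n hL hq _
    cases L with
    | nil => simp at hq
    | cons x L =>
      by_cases hx : x ∈ A
      · exact ⟨0, Nat.zero_le _, x, rfl, Or.inl ⟨rfl, hx⟩⟩
      · exact ⟨_, le_rfl, x, rfl, Or.inr ⟨rfl, hx⟩⟩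

theorem mach_sig {k : ℕ} {A : Set (List Bool)} {q : Polynomial ℕ}
    {R : List (List Bool) → ℕ → Prop} (hA : PSPACEHard A) (hR : SigRefuter2 (k + 1) A q R)
    {L : Set (List Bool)} (hL : InPSPACE L) : Sig (k + 1) L :=
  taskMachSig taskCase taskAny taskAll taskEx taskIncl k A L q R hR (taskMach A L q hA hL)

/-- The level version. -/
theorem pspace_sig_iff (k : ℕ) :
    (∃ (A : Set (List Bool)) (q : Polynomial ℕ) (R : List (List Bool) → ℕ → Prop),
      PSPACEHard A ∧ SigRefuter2 (k + 1) A q R) ↔
    ∀ L : Set (List Bool), InPSPACE L → Sig (k + 1) L := by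
  constructor
  · rintro ⟨A, q, R, hA, hR⟩ L hL
    exact mach_sig hA hR hL
  · intro h
    have h1 := Pool.Agent.H656R2.AK.arcKayles_mem
    obtain ⟨q, R, hR⟩ := refuter2_of_sig (h _ h1)
      (Pool.Agent.H656R2.AK.arcKayles_hard _ (inPSPACE_compl h1))
    exact ⟨_, q, R, Pool.Agent.H656R2.AK.arcKayles_hard, hR⟩

/-- `PSPACE = PH`. -/
theorem pspace_ph_iff :
    (∃ (A : Set (List Bool)) (q : Polynomial ℕ) (k : ℕ) (R : List (List Bool) → ℕ → Prop),
      PSPACEHard A ∧ SigRefuter2 k A q R) ↔
    ∀ L : Set (List Bool), InPSPACE L → ∃ k, Sig k L := by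
  constructor
  · rintro ⟨A, q, k, R, hA, hR⟩ L hL
    exact ⟨k + 1, mach_sig hA ⟨sig_succ hR.sig, hR.sound, hR.complete⟩ hL⟩
  · intro h
    have h1 := Pool.Agent.H656R2.AK.arcKayles_mem
    obtain ⟨k, hk⟩ := h _ h1
    obtain ⟨q, R, hR⟩ := refuter2_of_sig hk
      (Pool.Agent.H656R2.AK.arcKayles_hard _ (inPSPACE_compl h1))
    exact ⟨_, q, k, R, Pool.Agent.H656R2.AK.arcKayles_hard, hR⟩

end Pool.Agent.H334R5.Ph
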