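import Pool.Agent.H334R5.Ph.Stmts
import Pool.Agent.H334R5.Nd.Main

/-!
# Simple closure properties
-/

set_option autoImplicit false

namespace Pool.Agent.H334R5.Ph

open Pool.Agent.NPC

theorem sig_univ_empty : ∀ k : ℕ, Sig k Set.univ ∧ Sig k (∅ : Set (List Bool))
  | 0 => ⟨⟨fun _ => [true], PIso.poly_iff.1 (NPC.Poly.const _), fun x => by simp⟩,
      ⟨fun _ => [false], PIso.poly_iff.1 (NPC.Poly.const _), fun x => by simp⟩⟩
  | k + 1 => ⟨⟨Set.univ, 0, by rw [Set.compl_univ]; exact (sig_univ_empty k).2, fun x => by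
        simp⟩,
      ⟨∅, 0, by rw [Set.compl_empty]; exact (sig_univ_empty k).1, fun x => by simp⟩⟩

theorem sig_pre (hC : TaskCase) {k : ℕ} {L : Set (List Bool)} {f : List Bool → List Bool}
    (hf : Poly f) (h : Sig k L) : Sig k {x | f x ∈ L} := by
  have := hC k L Set.univ (fun _ => true) f f (NPC.Poly.const _) hf hf h (sig_univ_empty k).1
  convert this using 2
  simp

theorem sig_and (hC : TaskCase) {k : ℕ} {L : Set (List Bool)} {f : List Bool → List Bool}
    {c : List Bool → Bool} (hc : Poly c) (hf : Poly f) (h : Sig k L) :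
    Sig k {x | c x = true ∧ f x ∈ L} := by
  have := hC k L ∅ c f f hc hf hf h (sig_univ_empty k).2
  convert this using 2
  simp

theorem sig_or (hC : TaskCase) {k : ℕ} {L : Set (List Bool)} {f : List Bool → List Bool}
    {c : List Bool → Bool} (hc : Poly c) (hf : Poly f) (h : Sig k L) :
    Sig k {x | c x = true ∨ f x ∈ L} := by
  have := hC k Set.univ L c f f hc hf hf (sig_univ_empty k).1 h
  convert this using 1
  ext x
  simp only [Set.mem_setOf_eq, Set.mem_univ, and_true]
  cases c x <;> simp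

theorem sig_inter (hC : TaskCase) (hA : TaskAny) (hAll : TaskAll) {k : ℕ}
    {L₁ L₂ : Set (List Bool)} (h₁ : Sig k L₁) (h₂ : Sig k L₂) : Sig k (L₁ ∩ L₂) := by
  have h3 := hC k L₁ L₂ (fun w => decide (w.head? = some true)) (fun w => w.tail)
    (fun w => w.tail) (Poly.decide_eq (Poly.head? Poly.id) (NPC.Poly.const _)) (Poly.tail Poly.id)
    (Poly.tail Poly.id) h₁ h₂
  have h4 := hAll hC hA k _ (fun _ => 2) (fun x t => decide (t = 0) :: x) (UPoly.const 2)
    (Poly.cons (Poly.decide_eq (Poly.snd Poly.id) (NPC.Poly.const 0)) (Poly.fst Poly.id)) h3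
  convert h4 using 1
  ext x
  simp only [Set.mem_inter_iff, Set.mem_setOf_eq, List.head?_cons, List.tail_cons,
    decide_eq_true_eq, decide_eq_false_iff_not, Option.some.injEq]
  constructor
  · rintro ⟨h5, h6⟩ t ht
    by_cases h7 : t = 0
    · exact Or.inl ⟨h7, h5⟩
    · exact Or.inr ⟨h7, h6⟩
  · intro h
    rcases h 0 (by norm_num) with h5 | h5
    · rcases h 1 (by norm_num) with h6 | h6
      · exact absurd h6.1 (by norm_num)
      · exact ⟨h5.2, h6.2⟩
    · exact absurd rfl h5.1

end Pool.Agent.H334R5.Ph
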