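import Pool.Agent.H334R5.Ps.Stmts

/-!
# The polynomial hierarchy and the refutation of threshold patterns: definitions
-/

set_option autoImplicit false

namespace Pool.Agent.H334R5.Ph

open Pool.Agent.NPC
open Pool.Agent.H334R5.Nd (Pattern)

/-- `Sig k` is the level `Σ_k^P` of the polynomial hierarchy: `Σ_0^P` is `P`, and the sets in
`Σ_{k+1}^P` are `{x | ∃ y, |y| ≤ p(|x|) ∧ ⟨x, y⟩ ∈ R}` with `R` in `Π_k^P`, that is, with the
complement of `R` in `Σ_k^P`. -/
def Sig : ℕ → Set (List Bool) → Prop
  | 0, L => InP L
  | k + 1, L => ∃ (R : Set (List Bool)) (p : Polynomial ℕ), Sig k Rᶜ ∧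
      ∀ x, x ∈ L ↔ ∃ y : List Bool, y.length ≤ p.eval x.length ∧ pairBits x y ∈ R

/-- Hardness for `Σ_k^P` under polynomial-time many-one reductions. -/
def SigHard (k : ℕ) (A : Set (List Bool)) : Prop := ∀ L, Sig k L → Reduces L A

/-- `R` is a `Σ_k^P` relation between lists `L` of strings and numbers `j` which holds only if `L`
does not have the threshold pattern `j` for `A` (`sound`), and if none of the `m ≥ q(n)` strings of
the list `L`, which have length at most `n`, is in `A`, then it holds for some `j ≤ m`
(`complete`). -/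
structure SigRefuter (k : ℕ) (A : Set (List Bool)) (q : Polynomial ℕ)
    (R : List (List Bool) → ℕ → Prop) : Prop where
  sig : Sig k (lang fun p : List (List Bool) × ℕ => R p.1 p.2)
  sound : ∀ (L : List (List Bool)) (j : ℕ), R L j → ¬ Pattern A L j
  complete : ∀ (L : List (List Bool)) (n : ℕ), (∀ x ∈ L, x.length ≤ n ∧ x ∉ A) →
    q.eval n ≤ L.length → ∃ j ≤ L.length, R L j

/-- The same, with `complete` for all lists which have a threshold pattern: if the `m ≥ q(n)`
strings of the list `L` have length at most `n`, and `L` has some threshold pattern, then `R L j`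
holds for some `j ≤ m`. -/
structure SigRefuter2 (k : ℕ) (A : Set (List Bool)) (q : Polynomial ℕ)
    (R : List (List Bool) → ℕ → Prop) : Prop where
  sig : Sig k (lang fun p : List (List Bool) × ℕ => R p.1 p.2)
  sound : ∀ (L : List (List Bool)) (j : ℕ), R L j → ¬ Pattern A L j
  complete : ∀ (L : List (List Bool)) (n : ℕ), (∀ x ∈ L, x.length ≤ n) →
    q.eval n ≤ L.length → (∃ j, Pattern A L j) → ∃ j ≤ L.length, R L j

end Pool.Agent.H334R5.Ph
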