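import Pool.Agent.H334R5.Ph.TaskAny
import Pool.Agent.H334R5.Nd.Main

/-!
# Task All: bounded conjunctions
-/

set_option autoImplicit false

namespace Pool.Agent.H334R5.Ph

open Pool.Agent.NPC
open Pool.Agent.H334R5.Nd (blk)

theorem all_blocks (b : ℕ) (f : ℕ → List Bool) (n : ℕ) (hf : ∀ t < n, (f t).length = b) :
    ∃ w : List Bool, w.length = n * b ∧ ∀ t < n, blk b w t = f t := by
  induction n with
  | zero => exact ⟨[], by simp, fun t ht => absurd ht (Nat.not_lt_zero _)⟩
  | succ n ih =>
    obtain ⟨w, hw, h⟩ := ih (fun t ht => hf t (by omega))
    have hn := hf n (by omega)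
    refine ⟨w ++ f n, by rw [List.length_append, hw, hn]; ring, fun t ht => ?_⟩
    rcases Nat.lt_succ_iff_lt_or_eq.1 ht with h1 | h1
    · rw [← h t h1]
      unfold blk
      have h2 : (t + 1) * b ≤ n * b := Nat.mul_le_mul_right b (by omega)
      rw [add_mul, one_mul] at h2
      rw [List.drop_append_of_le_length (by omega), List.take_append_of_le_length
        (by rw [List.length_drop]; omega)]
    · subst h1
      unfold blk
      rw [← hw, List.drop_left' rfl, ← hn, List.take_length]

theorem taskAll : TaskAll := by
  intro hcase hany k L T h hT hh hL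
  cases k with
  | zero =>
    obtain ⟨V, hV, hVL⟩ := hL
    have pV : Poly V := PIso.poly_iff.2 hV
    have ph : Poly (fun x : List Bool =>
        (List.range (T x)).all (fun t => decide (V (h x t) = [true]))) := by
      refine Poly.all (l := fun x : List Bool => List.range (T x))
        (p := fun x t => decide (V (h x t) = [true])) hT.range ?_
      exact Poly.decide_eq (pV.comp hh) (NPC.Poly.const _)
    refine ⟨fun x => [(List.range (T x)).all (fun t => decide (V (h x t) = [true]))],
      PIso.poly_iff.1 (Poly.cons ph (NPC.Poly.const [])), fun x => ?_⟩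
    simp only [List.cons.injEq, and_true, List.all_eq_true, List.mem_range, decide_eq_true_eq,
      Set.mem_setOf_eq]
    constructor
    · intro h1 t ht
      exact (hVL _).1 (h1 t ht)
    · intro h1 t ht
      exact (hVL _).2 (h1 t ht)
  | succ k =>
    obtain ⟨R, p, hR, hRL⟩ := hL
    set X : List Bool → List Bool := fun z => (unpair z).1 with hX
    have pX : Poly X := Poly.fst poly_unpair
    -- bounds
    obtain ⟨P1, hP1⟩ := hh.sz_le
    obtain ⟨P2, hP2⟩ := (show Poly (fun a => List.replicate (T a) ()) from hT).sz_le
    set A : Polynomial ℕ := P2.comp (Polynomial.C 4 * Polynomial.X + Polynomial.C 1) with hA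
    have hTb : ∀ x : List Bool, T x ≤ A.eval x.length := by
      intro x
      have e1 := hP2 x
      have e2 := length_lt_sz (List.replicate (T x) ())
      rw [List.length_replicate] at e2
      have e3 : sz x ≤ 4 * x.length + 1 := sz_listBool_le x
      have e4 := eval_mono P2 e3
      rw [hA]
      simp only [Polynomial.eval_comp, Polynomial.eval_add, Polynomial.eval_mul,
        Polynomial.eval_C, Polynomial.eval_X]
      omega
    set B : Polynomial ℕ := p.comp (P1.comp (Polynomial.C 4 * Polynomial.X +
      Polynomial.C 4 * A + Polynomial.C 3)) with hB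
    have hHb : ∀ (x : List Bool) (t : ℕ), t < T x → p.eval (h x t).length ≤ B.eval x.length := by
      intro x t ht
      have e1 := hP1 (x, t)
      have e2 := length_lt_sz (h x t)
      rw [sz_pair] at e1
      have e3 : sz x ≤ 4 * x.length + 1 := sz_listBool_le x
      have e4 := sz_nat_le t
      have e5 : t.size ≤ t := Nat.size_le.2 Nat.lt_two_pow_self
      have e6 := hTb x
      have e7 : sz x + sz t + 1 ≤ 4 * x.length + 4 * A.eval x.length + 3 := by omega
      have e8 := eval_mono P1 e7
      rw [hB]
      simp only [Polynomial.eval_comp, Polynomial.eval_add, Polynomial.eval_mul,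
        Polynomial.eval_C, Polynomial.eval_X]
      refine eval_mono p ?_
      simp only at e1
      omega
    set D : Polynomial ℕ := Polynomial.C 2 * B + Polynomial.C 1 with hD
    have hDe : ∀ n : ℕ, D.eval n = 2 * B.eval n + 1 := fun n => by
      rw [hD]
      simp only [Polynomial.eval_add, Polynomial.eval_mul, Polynomial.eval_C]
    -- the queries
    set g : List Bool → ℕ → List Bool := fun z t =>
      pairBits (h (X z) t) ((unpair (blk (D.eval (X z).length) (unpair z).2 t)).1.take
        (p.eval (h (X z) t).length)) with hg
    have pg : Poly (fun q : List Bool × ℕ => g q.1 q.2) := by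
      have q1 : Poly (fun q : List Bool × ℕ => unpair q.1) := poly_unpair.comp (Poly.fst Poly.id)
      have qX : Poly (fun q : List Bool × ℕ => X q.1) := Poly.fst q1
      have qt : Poly (fun q : List Bool × ℕ => q.2) := Poly.snd Poly.id
      have qh : Poly (fun q : List Bool × ℕ => h (X q.1) q.2) :=
        Poly.comp (g := fun p : List Bool × ℕ => h p.1 p.2)
          (f := fun q : List Bool × ℕ => (X q.1, q.2)) hh (Poly.pair qX qt)
      have qD : Poly (fun q : List Bool × ℕ => D.eval (X q.1).length) :=
        ((UPoly.length qX).eval D).toPoly
      have qb : Poly (fun q : List Bool × ℕ =>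
          blk (D.eval (X q.1).length) (unpair q.1).2 q.2) := by
        unfold blk
        exact Clo.poly_take (Clo.poly_drop (Poly.snd q1) (Poly.mul qt qD)) qD
      exact any_pb qh (Clo.poly_take (Poly.fst (poly_unpair.comp qb))
        ((UPoly.length qh).eval p).toPoly)
    have h1 := hany hcase k Rᶜ (fun z => T (X z)) g (UPoly.comp hT pX) pg hR
    refine ⟨{z | ∀ t < T (X z), g z t ∈ R}, A * D, ?_, ?_⟩
    · convert h1 using 1
      ext z
      simp only [Set.mem_compl_iff, Set.mem_setOf_eq, not_forall, exists_prop]
    · intro x
      have hXe : ∀ w : List Bool, X (pairBits x w) = x := fun w => by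
        simp only [hX, unpair_pairBits]
      simp only [Set.mem_setOf_eq, hXe]
      constructor
      · intro hx
        have hy : ∀ t : ℕ, ∃ y : List Bool, t < T x →
            (y.length ≤ p.eval (h x t).length ∧ pairBits (h x t) y ∈ R) := by
          intro t
          by_cases ht : t < T x
          · obtain ⟨y, hy⟩ := (hRL _).1 (hx t ht)
            exact ⟨y, fun _ => hy⟩
          · exact ⟨[], fun h' => absurd h' ht⟩
        choose y hy using hy
        obtain ⟨w, hw, hwb⟩ := all_blocks (D.eval x.length)
          (fun t => pairBits (y t) (List.replicate (D.eval x.length - (2 * (y t).length + 1)) false))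
          (T x) (fun t ht => by
            have e1 := (hy t ht).1
            have e2 := hHb x t ht
            have e3 := hDe x.length
            rw [any_len, List.length_replicate]
            omega)
        refine ⟨w, ?_, fun t ht => ?_⟩
        · rw [hw, Polynomial.eval_mul]
          exact Nat.mul_le_mul_right _ (hTb x)
        · have e1 := hwb t ht
          have e2 := hy t ht
          simp only [hg, hXe, unpair_pairBits]
          rw [e1, unpair_pairBits, List.take_of_length_le e2.1]
          exact e2.2
      · rintro ⟨w, -, hw⟩ t ht
        have e1 := hw t ht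
        simp only [hg, hXe, unpair_pairBits] at e1
        exact (hRL _).2 ⟨_, List.length_take_le _ _, e1⟩

end Pool.Agent.H334R5.Ph
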