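import Pool.Agent.H334R5.Ph.Stmts
import Pool.Agent.H671R2.PolyAuto

/-!
# Task Any: bounded disjunctions
-/

set_option autoImplicit false

namespace Pool.Agent.H334R5.Ph

open Pool.Agent.NPC

theorem any_triv (k : ℕ) : Sig k (Set.univ : Set (List Bool)) ∧ Sig k (∅ : Set (List Bool)) := by
  induction k with
  | zero =>
    refine ⟨⟨fun _ => [true], PIso.poly_iff.1 (NPC.Poly.const _), fun x => by simp⟩,
      ⟨fun _ => [false], PIso.poly_iff.1 (NPC.Poly.const _), fun x => by simp⟩⟩
  | succ k ih =>
    refine ⟨⟨Set.univ, 0, ?_, fun x => ⟨fun _ => ⟨[], by simp, trivial⟩, fun _ => trivial⟩⟩,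
      ⟨∅, 0, ?_, fun x => ⟨fun h => absurd h (Set.notMem_empty _), fun ⟨_, _, h⟩ => h⟩⟩⟩
    · rw [Set.compl_univ]; exact ih.2
    · rw [Set.compl_empty]; exact ih.1

theorem any_len (x w : List Bool) : (pairBits x w).length = 2 * x.length + 1 + w.length := by
  unfold pairBits
  rw [List.length_append, List.length_cons, List.length_flatMap]
  simp
  ring

theorem any_pb {α : Type} [TEnc α] {x w : α → List Bool} (hx : Poly x) (hw : Poly w) :
    Poly (fun a => pairBits (x a) (w a)) :=
  Poly.append (Poly.flatMap (F := fun _ b => [true, b]) hx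
    (Poly.cons (NPC.Poly.const true) (Poly.cons (Poly.snd Poly.id) (NPC.Poly.const []))))
    (Poly.cons (NPC.Poly.const false) hw)

theorem taskAny : TaskAny := by
  intro hcase k L T h hT hh hL
  cases k with
  | zero =>
    obtain ⟨V, hV, hVL⟩ := hL
    have pV : Poly V := PIso.poly_iff.2 hV
    have ph : Poly (fun x : List Bool =>
        (List.range (T x)).any (fun t => decide (V (h x t) = [true]))) := by
      refine Poly.any (l := fun x : List Bool => List.range (T x))
        (p := fun x t => decide (V (h x t) = [true])) hT.range ?_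
      exact Poly.decide_eq (pV.comp hh) (NPC.Poly.const _)
    refine ⟨fun x => [(List.range (T x)).any (fun t => decide (V (h x t) = [true]))],
      PIso.poly_iff.1 (Poly.cons ph (NPC.Poly.const [])), fun x => ?_⟩
    simp only [List.cons.injEq, and_true, List.any_eq_true, List.mem_range, decide_eq_true_eq,
      Set.mem_setOf_eq]
    constructor
    · rintro ⟨t, ht, h1⟩
      exact ⟨t, ht, (hVL _).1 h1⟩
    · rintro ⟨t, ht, h1⟩
      exact ⟨t, ht, (hVL _).2 h1⟩
  | succ k =>
    obtain ⟨R, p, hR, hRL⟩ := hL
    set X : List Bool → List Bool := fun z => (unpair z).1 with hX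
    set W : List Bool → ℕ := fun z => (unpair (unpair z).2).1.length with hW
    set Y : List Bool → List Bool := fun z => (unpair (unpair z).2).2 with hY
    have pX : Poly X := Poly.fst poly_unpair
    have pU : Poly (fun z => unpair (unpair z).2) := poly_unpair.comp (Poly.snd poly_unpair)
    have pW : Poly W := Poly.length (Poly.fst pU)
    have pY : Poly Y := Poly.snd pU
    have pH : Poly (fun z => h (X z) (W z)) :=
      Poly.comp (g := fun p : List Bool × ℕ => h p.1 p.2) (f := fun z => (X z, W z)) hh
        (Poly.pair pX pW)
    set c : List Bool → Bool := fun z => decide (W z < T (X z)) &&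
      decide ((Y z).length ≤ p.eval (h (X z) (W z)).length) with hc
    have pc : Poly c := Poly.and (Poly.decide_lt pW ((hT.toPoly).comp pX))
      (Poly.decide_le (Poly.length pY) ((UPoly.length pH).eval p).toPoly)
    have pf : Poly (fun z => pairBits (h (X z) (W z)) (Y z)) := any_pb pH pY
    have h1 := hcase k Rᶜ Set.univ c (fun z => pairBits (h (X z) (W z)) (Y z)) (fun z => z) pc pf
      Poly.id hR (any_triv k).1
    -- bounds
    obtain ⟨P1, hP1⟩ := hh.sz_le
    obtain ⟨P2, hP2⟩ := (show Poly (fun a => List.replicate (T a) ()) from hT).sz_le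
    set A : Polynomial ℕ := P2.comp (Polynomial.C 4 * Polynomial.X + Polynomial.C 1) with hA
    have hTb : ∀ x : List Bool, T x ≤ A.eval x.length := by
      intro x
      have e1 := hP2 x
      have e2 := length_lt_sz (List.replicate (T x) ())
      rw [List.length_replicate] at e2
      have e3 : sz x ≤ 4 * x.length + 1 := sz_listBool_le x
      have e4 := eval_mono P2 e3
      rw [hA]
      simp only [Polynomial.eval_comp, Polynomial.eval_add, Polynomial.eval_mul,
        Polynomial.eval_C, Polynomial.eval_X]
      omega
    set B : Polynomial ℕ := p.comp (P1.comp (Polynomial.C 4 * Polynomial.X +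
      Polynomial.C 4 * A + Polynomial.C 3)) with hB
    have hHb : ∀ (x : List Bool) (t : ℕ), t < T x → p.eval (h x t).length ≤ B.eval x.length := by
      intro x t ht
      have e1 := hP1 (x, t)
      have e2 := length_lt_sz (h x t)
      rw [sz_pair] at e1
      have e3 : sz x ≤ 4 * x.length + 1 := sz_listBool_le x
      have e4 := sz_nat_le t
      have e5 : t.size ≤ t := Nat.size_le.2 Nat.lt_two_pow_self
      have e6 := hTb x
      have e7 : sz x + sz t + 1 ≤ 4 * x.length + 4 * A.eval x.length + 3 := by omega
      have e8 := eval_mono P1 e7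
      rw [hB]
      simp only [Polynomial.eval_comp, Polynomial.eval_add, Polynomial.eval_mul,
        Polynomial.eval_C, Polynomial.eval_X]
      refine eval_mono p ?_
      simp only at e1
      omega
    have hXe : ∀ (x : List Bool) (w : List Bool), X (pairBits x w) = x := fun x w => by
      simp only [hX, unpair_pairBits]
    refine ⟨{z | c z = true ∧ pairBits (h (X z) (W z)) (Y z) ∈ R},
      Polynomial.C 2 * A + Polynomial.C 1 + B, ?_, ?_⟩
    · convert h1 using 1
      ext z
      simp only [Set.mem_compl_iff, Set.mem_setOf_eq, Set.mem_univ, and_true]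
      cases c z <;> simp
    · intro x
      constructor
      · rintro ⟨t, ht, hx⟩
        obtain ⟨y, hy, hyR⟩ := (hRL _).1 hx
        refine ⟨pairBits (List.replicate t true) y, ?_, ?_⟩
        · rw [any_len, List.length_replicate]
          have e1 := hTb x
          have e2 := hHb x t ht
          simp only [Polynomial.eval_add, Polynomial.eval_mul, Polynomial.eval_C]
          omega
        · have hWe : W (pairBits x (pairBits (List.replicate t true) y)) = t := by
            simp only [hW, unpair_pairBits, List.length_replicate]
          have hYe : Y (pairBits x (pairBits (List.replicate t true) y)) = y := by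
            simp only [hY, unpair_pairBits]
          simp only [Set.mem_setOf_eq, hc, hXe, hWe, hYe]
          exact ⟨by simp [ht, hy], hyR⟩
      · rintro ⟨w, -, hw⟩
        simp only [Set.mem_setOf_eq, hc, hXe, Bool.and_eq_true, decide_eq_true_eq] at hw
        obtain ⟨⟨g1, g2⟩, g3⟩ := hw
        exact ⟨_, g1, (hRL _).2 ⟨_, g2, g3⟩⟩

end Pool.Agent.H334R5.Ph
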