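import Pool.Agent.H334R5.Ph.Stmts

/-!
# Closure of the levels of the polynomial hierarchy under case distinction
-/

set_option autoImplicit false

namespace Pool.Agent.H334R5.Ph

open Pool.Agent.NPC

theorem TaskCase_bound {f : List Bool → List Bool} (hf : Poly f) (p : Polynomial ℕ) :
    ∃ P : Polynomial ℕ, ∀ x : List Bool, p.eval (f x).length ≤ P.eval x.length := by
  obtain ⟨q, hq⟩ := hf.sz_le
  refine ⟨p.comp (q.comp (Polynomial.C 4 * Polynomial.X + Polynomial.C 1)), fun x => ?_⟩
  have h1 := hq x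
  have h2 := length_lt_sz (f x)
  have h3 : sz x ≤ 4 * x.length + 1 := sz_listBool_le x
  rw [Polynomial.eval_comp, Polynomial.eval_comp]
  refine eval_mono p ?_
  have h4 : q.eval (sz x) ≤ q.eval (4 * x.length + 1) := eval_mono q h3
  simp only [Polynomial.eval_add, Polynomial.eval_mul, Polynomial.eval_C, Polynomial.eval_X]
  omega

theorem TaskCase_set (c : List Bool → Bool) (f g : List Bool → List Bool)
    (L₁ L₂ : Set (List Bool)) (x : List Bool) :
    (x ∈ {x | (c x = true ∧ f x ∈ L₁) ∨ (c x = false ∧ g x ∈ L₂)}ᶜ) ↔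
      (x ∈ {x | (c x = true ∧ f x ∈ L₁ᶜ) ∨ (c x = false ∧ g x ∈ L₂ᶜ)}) := by
  simp only [Set.mem_compl_iff, Set.mem_ofPred_eq]
  cases c x <;> simp

theorem TaskCase_F {f : List Bool → List Bool} (hf : Poly f) (p : Polynomial ℕ) :
    Poly (fun z : List Bool => pairBits (f (unpair z).1)
      ((unpair z).2.take (p.eval (f (unpair z).1).length))) := by
  have h1 : Poly (fun z : List Bool => (unpair z).1) := Poly.fst poly_unpair
  have h2 : Poly (fun z : List Bool => (unpair z).2) := Poly.snd poly_unpair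
  have h3 : Poly (fun z : List Bool => f (unpair z).1) := hf.comp h1
  have h4 : Poly (fun z : List Bool => p.eval (f (unpair z).1).length) :=
    (UPoly.eval (UPoly.length h3) p).toPoly
  have h5 : Poly (fun z : List Bool => (unpair z).2.take (p.eval (f (unpair z).1).length)) :=
    Clo.poly_take h2 h4
  unfold pairBits
  refine Poly.append (Poly.flatMap (F := fun _ b => [true, b]) h3 ?_)
    (Poly.cons (NPC.Poly.const false) h5)
  exact Poly.cons (NPC.Poly.const true) (Poly.cons (Poly.snd Poly.id) (NPC.Poly.const []))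

theorem taskCase : TaskCase := by
  intro k
  induction k with
  | zero =>
    rintro L₁ L₂ c f g hc hf hg ⟨V₁, hV₁, h₁⟩ ⟨V₂, hV₂, h₂⟩
    have e₁ : Poly V₁ := PIso.poly_iff.2 hV₁
    have e₂ : Poly V₂ := PIso.poly_iff.2 hV₂
    refine ⟨fun x => bif c x then V₁ (f x) else V₂ (g x),
      PIso.poly_iff.1 (Poly.cond hc (e₁.comp hf) (e₂.comp hg)), fun x => ?_⟩
    simp only [Set.mem_ofPred_eq]
    cases c x with
    | true => simp [h₁]
    | false => simp [h₂]
  | succ k ih =>
    rintro L₁ L₂ c f g hc hf hg ⟨R₁, p₁, hR₁, h₁⟩ ⟨R₂, p₂, hR₂, h₂⟩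
    obtain ⟨P₁, hP₁⟩ := TaskCase_bound hf p₁
    obtain ⟨P₂, hP₂⟩ := TaskCase_bound hg p₂
    have hu1 : Poly (fun z : List Bool => (unpair z).1) := Poly.fst poly_unpair
    refine ⟨{z | (c (unpair z).1 = true ∧ pairBits (f (unpair z).1)
        ((unpair z).2.take (p₁.eval (f (unpair z).1).length)) ∈ R₁) ∨
        (c (unpair z).1 = false ∧ pairBits (g (unpair z).1)
        ((unpair z).2.take (p₂.eval (g (unpair z).1).length)) ∈ R₂)}, P₁ + P₂, ?_, fun x => ?_⟩
    · have h3 := ih R₁ᶜ R₂ᶜ (fun z => c (unpair z).1)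
        (fun z : List Bool => pairBits (f (unpair z).1)
          ((unpair z).2.take (p₁.eval (f (unpair z).1).length)))
        (fun z : List Bool => pairBits (g (unpair z).1)
          ((unpair z).2.take (p₂.eval (g (unpair z).1).length)))
        (hc.comp hu1) (TaskCase_F hf p₁) (TaskCase_F hg p₂) hR₁ hR₂
      refine (congrArg (Sig k) (Set.ext fun z => ?_)).mpr h3
      exact TaskCase_set (fun z => c (unpair z).1) _ _ R₁ R₂ z
    · simp only [Set.mem_ofPred_eq, Polynomial.eval_add, unpair_pairBits]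
      rw [h₁, h₂]
      constructor
      · rintro (⟨hcx, y, hy, hy2⟩ | ⟨hcx, y, hy, hy2⟩)
        · refine ⟨y, hy.trans ((hP₁ x).trans (Nat.le_add_right _ _)), Or.inl ⟨hcx, ?_⟩⟩
          rwa [List.take_of_length_le hy]
        · refine ⟨y, hy.trans ((hP₂ x).trans (Nat.le_add_left _ _)), Or.inr ⟨hcx, ?_⟩⟩
          rwa [List.take_of_length_le hy]
      · rintro ⟨y, -, ⟨hcx, hy⟩ | ⟨hcx, hy⟩⟩
        · exact Or.inl ⟨hcx, _, by rw [List.length_take]; exact min_le_left _ _, hy⟩
        · exact Or.inr ⟨hcx, _, by rw [List.length_take]; exact min_le_left _ _, hy⟩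

end Pool.Agent.H334R5.Ph
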