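import Pool.Agent.H334R5.Ph.Stmts
import Pool.Agent.H334R5.Clo.PolyPart

/-!
# Task Ex: bounded existential quantification
-/

set_option autoImplicit false

namespace Pool.Agent.H334R5.Ph.ExPf

open Pool.Agent.NPC

theorem len_pairBits (x w : List Bool) : (pairBits x w).length = 2 * x.length + 1 + w.length := by
  have h : ∀ x : List Bool, (x.flatMap (fun b => [true, b])).length = 2 * x.length := by
    intro x
    induction x with
    | nil => rfl
    | cons a x ih => simp only [List.flatMap_cons, List.length_append, List.length_cons,
        List.length_nil, ih]; omega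
  unfold pairBits
  rw [List.length_append, h, List.length_cons]
  omega

theorem poly_pairBits {α : Type} [TEnc α] {f g : α → List Bool} (hf : Poly f) (hg : Poly g) :
    Poly (fun a => pairBits (f a) (g a)) := by
  unfold pairBits
  exact Poly.append (Poly.flatMap (l := f) (F := fun _ b => [true, b]) hf
    (Poly.cons (NPC.Poly.const true) (Poly.cons (Poly.snd Poly.id) (NPC.Poly.const []))))
    (Poly.cons (NPC.Poly.const false) hg)

/-- The first part, with the first witness cut. -/
def g1 (p : Polynomial ℕ) (z : List Bool) : List Bool :=
  pairBits (unpair z).1 ((unpair (unpair z).2).1.take (p.eval (unpair z).1.length))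

/-- The regrouping of the pairs. -/
def G (p p0 : Polynomial ℕ) (z : List Bool) : List Bool :=
  pairBits (g1 p z) ((unpair (unpair z).2).2.take (p0.eval (g1 p z).length))

theorem poly_G (p p0 : Polynomial ℕ) : Poly (G p p0) := by
  have h1 : Poly (fun z : List Bool => (unpair z).1) := Poly.fst poly_unpair
  have h2 : Poly (fun z : List Bool => (unpair z).2) := Poly.snd poly_unpair
  have h3 : Poly (fun z : List Bool => unpair (unpair z).2) :=
    Poly.comp (g := unpair) (f := fun z : List Bool => (unpair z).2) poly_unpair h2
  have hg1 : Poly (g1 p) := by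
    unfold g1
    exact poly_pairBits h1 (Clo.poly_take (Poly.fst h3) ((UPoly.length h1).eval p).toPoly)
  unfold G
  exact poly_pairBits hg1 (Clo.poly_take (Poly.snd h3) ((UPoly.length hg1).eval p0).toPoly)

end Pool.Agent.H334R5.Ph.ExPf

namespace Pool.Agent.H334R5.Ph

open Pool.Agent.NPC
open ExPf

theorem taskEx : TaskEx := by
  intro hC k L p hL
  obtain ⟨R0, p0, hR0, hLR⟩ := hL
  refine ⟨{z | G p p0 z ∈ R0}, 2 * p + 1 + p0.comp (2 * Polynomial.X + 1 + p), ?_, ?_⟩
  · have h := hC k R0ᶜ R0ᶜ (fun _ => true) (G p p0) (G p p0) (NPC.Poly.const true)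
      (poly_G p p0) (poly_G p p0) hR0 hR0
    have e : {x | ((fun _ : List Bool => true) x = true ∧ G p p0 x ∈ R0ᶜ) ∨
        ((fun _ : List Bool => true) x = false ∧ G p p0 x ∈ R0ᶜ)} =
        {z | G p p0 z ∈ R0}ᶜ := by
      ext z
      simp
    rw [e] at h
    exact h
  · intro x
    have hG : ∀ y y' : List Bool, G p p0 (pairBits x (pairBits y y')) =
        pairBits (pairBits x (y.take (p.eval x.length)))
          (y'.take (p0.eval (pairBits x (y.take (p.eval x.length))).length)) := by
      intro y y'
      simp only [G, g1, unpair_pairBits]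
    have hev : (2 * p + 1 + p0.comp (2 * Polynomial.X + 1 + p) : Polynomial ℕ).eval x.length =
        2 * p.eval x.length + 1 + p0.eval (2 * x.length + 1 + p.eval x.length) := by
      simp [Polynomial.eval_add, Polynomial.eval_mul, Polynomial.eval_comp]
    constructor
    · rintro ⟨y, hy, hyL⟩
      obtain ⟨y', hy', hR⟩ := (hLR _).1 hyL
      refine ⟨pairBits y y', ?_, ?_⟩
      · rw [hev, len_pairBits]
        have h1 : p0.eval (pairBits x y).length ≤
            p0.eval (2 * x.length + 1 + p.eval x.length) := by
          refine eval_mono p0 ?_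
          rw [len_pairBits]
          omega
        omega
      · show G p p0 _ ∈ R0
        rw [hG, List.take_of_length_le hy, List.take_of_length_le hy']
        exact hR
    · rintro ⟨w, -, hw⟩
      have hw' : G p p0 (pairBits x w) ∈ R0 := hw
      refine ⟨(unpair w).1.take (p.eval x.length), ?_, ?_⟩
      · rw [List.length_take]
        exact min_le_left _ _
      · refine (hLR _).2 ⟨(unpair w).2.take (p0.eval (pairBits x
          ((unpair w).1.take (p.eval x.length))).length), ?_, ?_⟩
        · rw [List.length_take]
          exact min_le_left _ _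
        · simpa only [G, g1, unpair_pairBits] using hw'

end Pool.Agent.H334R5.Ph
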