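import Pool.Agent.H334R5.Ph.Stmts

/-!
# Task Incl: inclusions between the levels of the polynomial hierarchy
-/

set_option autoImplicit false

namespace Pool.Agent.H334R5.Ph

open Pool.Agent.NPC

theorem incl_one (hcase : TaskCase) (k : ℕ) (L : Set (List Bool)) (h : Sig k Lᶜ) :
    Sig (k + 1) L := by
  refine ⟨{z | (unpair z).1 ∈ L}, 0, ?_, fun x => ?_⟩
  · have pc : Poly (fun _ : List Bool => true) := NPC.Poly.const true
    have pf : Poly (fun z : List Bool => (unpair z).1) := Poly.fst poly_unpair
    have h1 := hcase k Lᶜ Lᶜ (fun _ => true) (fun z => (unpair z).1) (fun z => (unpair z).1)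
      pc pf pf h h
    refine (congrArg (Sig k) (Set.ext fun z => ?_)).mpr h1
    simp only [Set.mem_compl_iff, Set.mem_ofPred_eq]
    simp
  · simp only [Set.mem_ofPred_eq, unpair_pairBits]
    constructor
    · intro hx
      exact ⟨[], by simp, hx⟩
    · rintro ⟨_, _, hx⟩
      exact hx

theorem incl_compl (L : Set (List Bool)) (h : InP L) : InP Lᶜ := by
  obtain ⟨V, hV, hVL⟩ := h
  have pV : Poly V := PIso.poly_iff.2 hV
  have ph : Poly (fun x : List Bool => ! decide (V x = [true])) :=
    (Poly.decide_eq pV (NPC.Poly.const _)).not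
  refine ⟨fun x => [! decide (V x = [true])],
    PIso.poly_iff.1 (Poly.cons ph (NPC.Poly.const [])), fun x => ?_⟩
  simp only [List.cons.injEq, and_true, Set.mem_compl_iff, hVL x]
  by_cases hx : V x = [true] <;> simp [hx]

theorem taskIncl : TaskIncl := by
  intro hcase k
  induction k with
  | zero =>
    intro L
    refine ⟨incl_one hcase 0 L, fun h => incl_one hcase 0 L ?_⟩
    exact incl_compl L h
  | succ k ih =>
    intro L
    refine ⟨incl_one hcase (k + 1) L, ?_⟩
    rintro ⟨R, p, hR, hRL⟩
    exact ⟨R, p, (ih Rᶜ).2 hR, hRL⟩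

end Pool.Agent.H334R5.Ph
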