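import Pool.Agent.H334R5.Ph.SearchMain
import Pool.Agent.H334R5.Ph.TaskCase
import Pool.Agent.H334R5.Ph.TaskAny
import Pool.Agent.H334R5.Ph.TaskAll
import Pool.Agent.H334R5.Ph.TaskEx
import Pool.Agent.H334R5.Ph.TaskIncl

/-!
# The polynomial hierarchy and the refutation of one threshold pattern
-/

set_option autoImplicit false

namespace Pool.Agent.H334R5.Ph

open Pool.Agent.NPC
open Pool.Agent.H334R5.Nd (Pattern)

theorem sig_succ {k : ℕ} {L : Set (List Bool)} (h : Sig k L) : Sig (k + 1) L :=
  (taskIncl taskCase k L).2 h

theorem sig_succ_compl {k : ℕ} {L : Set (List Bool)} (h : Sig k Lᶜ) : Sig (k + 1) L :=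
  (taskIncl taskCase k L).1 h

theorem sig_mono {k j : ℕ} (hkj : k ≤ j) {L : Set (List Bool)} (h : Sig k L) : Sig j L := by
  induction hkj with
  | refl => exact h
  | step _ ih => exact sig_succ ih

/-- If one level is closed under complements, then the hierarchy collapses to it. -/
theorem collapse_of_compl {k : ℕ} (h : ∀ L : Set (List Bool), Sig (k + 1) L → Sig (k + 1) Lᶜ) :
    ∀ L : Set (List Bool), Sig (k + 2) L → Sig (k + 1) L := by
  rintro L ⟨R, p, hR, hL⟩
  have h1 := h _ hR
  rw [compl_compl] at h1
  have h2 := taskEx taskCase k R p h1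
  convert h2 using 1
  ext x
  exact hL x

theorem collapse_all {k : ℕ} (h : ∀ L : Set (List Bool), Sig (k + 2) L → Sig (k + 1) L) :
    ∀ (j : ℕ) (L : Set (List Bool)), Sig j L → Sig (k + 1) L := by
  intro j
  induction j with
  | zero => exact fun L hL => sig_mono (Nat.zero_le _) hL
  | succ j ih =>
    rintro L ⟨R, p, hR, hL⟩
    exact h L ⟨R, p, ih _ hR, hL⟩

/-- A refuter from the membership of the complement. -/
theorem refuter_of_compl {k : ℕ} {A : Set (List Bool)} (hA : Sig k Aᶜ) :
    ∃ (q : Polynomial ℕ) (R : List (List Bool) → ℕ → Prop), SigRefuter k A q R := by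
  refine ⟨1, fun L j => ∃ x, L.head? = some x ∧ j = L.length ∧ x ∉ A, ?_, ?_, ?_⟩
  · set c : List Bool → Bool := fun z => (unbits (List (List Bool) × ℕ) z).elim false
      (fun t => decide (t.1 ≠ []) && decide (t.2 = t.1.length)) with hc
    set g : List Bool → List Bool := fun z => (unbits (List (List Bool) × ℕ) z).elim []
      (fun t => t.1.head?.getD []) with hg
    have pc : Poly c := by
      refine Poly.optElim (o := fun z : List Bool => unbits (List (List Bool) × ℕ) z)
        (g := fun _ => false) (h := fun _ t => decide (t.1 ≠ []) && decide (t.2 = t.1.length))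
        poly_unbits (NPC.Poly.const _) ?_
      have h1 : Poly (fun p : List Bool × List (List Bool) × ℕ => p.2.1) :=
        Poly.fst (Poly.snd Poly.id)
      refine Poly.and ?_ (Poly.decide_eq (Poly.snd (Poly.snd Poly.id)) (Poly.length h1))
      exact (Poly.not (Poly.decide_eq h1 (NPC.Poly.const []))).congr fun p => by simp
    have pg : Poly g := by
      refine Poly.optElim (o := fun z : List Bool => unbits (List (List Bool) × ℕ) z)
        (g := fun _ => []) (h := fun _ t => t.1.head?.getD []) poly_unbits (NPC.Poly.const _) ?_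
      refine (Poly.optElim (o := fun p : List Bool × List (List Bool) × ℕ => p.2.1.head?)
        (g := fun _ => []) (h := fun _ l => l) (Poly.head? (Poly.fst (Poly.snd Poly.id)))
        (NPC.Poly.const _) (Poly.snd Poly.id)).congr fun p => by
          cases p.2.1.head? <;> rfl
    have h := sig_and taskCase pc pg hA
    convert h using 1
    ext z
    rw [mem_lang_iff]
    simp only [hc, hg, Set.mem_setOf_eq]
    cases hz : unbits (List (List Bool) × ℕ) z with
    | none => simp
    | some t =>
      obtain ⟨L, j⟩ := t
      cases L with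
      | nil => simp
      | cons x L => simp
  · rintro L j ⟨x, hx, hj, hxA⟩ hp
    refine hxA (hp.2.1 x ?_)
    rw [hj, List.take_length]
    exact List.mem_of_mem_head? hx
  · intro L n hL hq
    cases L with
    | nil => simp at hq
    | cons x L => exact ⟨_, le_rfl, x, rfl, rfl, (hL x (by simp)).2⟩

/-- The levels collapse if and only if all sets of the level have refuters. -/
theorem refuter_iff (k : ℕ) :
    (∀ A : Set (List Bool), Sig (k + 1) A →
      ∃ (q : Polynomial ℕ) (R : List (List Bool) → ℕ → Prop), SigRefuter (k + 1) A q R) ↔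
    ∀ L : Set (List Bool), Sig (k + 2) L → Sig (k + 1) L := by
  constructor
  · intro h
    refine collapse_of_compl (fun L hL => ?_)
    obtain ⟨R0, p0, hR0, hL0⟩ := hL
    obtain ⟨q, R, hR⟩ := h _ (sig_left taskCase (p0 := p0) hR0)
    exact search_core taskCase taskAny taskAll taskEx taskIncl hR0 hL0
      ⟨fun x => x, polyTime_id, fun x => Iff.rfl⟩ hR
  · intro h A hA
    exact refuter_of_compl (h _ (sig_succ_compl (by rw [compl_compl]; exact hA)))

theorem collapse_of_refuter (k : ℕ) {A : Set (List Bool)} (hA : SigHard (k + 1) A)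
    {q : Polynomial ℕ} {R : List (List Bool) → ℕ → Prop} (hR : SigRefuter (k + 1) A q R) :
    ∀ L : Set (List Bool), Sig (k + 2) L → Sig (k + 1) L :=
  collapse_of_compl (taskSearchSig taskCase taskAny taskAll taskEx taskIncl k A q R hA hR)

end Pool.Agent.H334R5.Ph
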