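import Pool.Agent.H334R5.Ph.Stmts
import Pool.Agent.H334R5.Nd.Main

/-!
# The search for a witness of a set of the polynomial hierarchy
-/

set_option autoImplicit false

namespace Pool.Agent.H334R5.Ph

open Pool.Agent.NPC
open Pool.Agent.H251R5.PQ (Ver)
open Pool.Agent.H334R5.Clo (num ext)
open Pool.Agent.H334R5.Nd (qry stepK pot Pattern qry_length length_remove remove_sublist poly_qry
  poly_stepK stepK_pot stepK_ok stepK_true Shape stepK_shape iter foldl_iter iter_shape iter_rem
  init_shape poly_run run blk ans)
open Pool.Agent.H334R5.Cnt (usz bits_poly fpoly_of_poly)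

/-- The maximal witness is still below a node. -/
def Mem (n : ℕ) (W : List Bool → Prop) (s : ℕ × List (List Bool)) : Prop :=
  ∀ w : List Bool, w.length = n → W w →
    (∀ w' : List Bool, w'.length = n → W w' → num w' ≤ num w) → w.take (n - s.1) ∈ s.2

/-- The left set. -/
def LeftW (n : List Bool → ℕ) (W : List Bool → List Bool → Prop) (t : List Bool × List Bool) :
    Prop :=
  ∃ w : List Bool, w.length = n t.1 ∧ W t.1 w ∧ num t.2 ≤ num (w.take t.2.length)

variable {f : List Bool → List Bool} {M : ℕ} {V : Ver} {x : List Bool} {A : Set (List Bool)}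
  {W : List Bool → List Bool → Prop}

theorem pattern_idx (hf : ∀ u, (f (bits (x, u)) ∈ A ↔ LeftW V.n W (x, u)))
    {s : ℕ × List (List Bool)} (hs : Shape V x M s) {w : List Bool} (hw : w.length = V.n x)
    (hV : W x w)
    (hmax : ∀ w' : List Bool, w'.length = V.n x → W x w' → num w' ≤ num w)
    {k : ℕ} (hk : k < s.2.length) (hkw : s.2[k] = w.take (V.n x - s.1)) :
    Pattern A (qry f x s.2) k := by
  set i := V.n x - s.1 with hi
  set L := qry f x s.2 with hL
  have hLlen : L.length = s.2.length - 1 := qry_length f x s.2
  have hleft : ∀ u : List Bool, u.length = i →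
      (LeftW V.n W (x, u) ↔ num u ≤ num (w.take i)) := by
    intro u hu
    constructor
    · rintro ⟨w', hw', hV', h1⟩
      simp only at hw' hV' h1
      rw [hu] at h1
      exact h1.trans (Clo.num_take_mono (by rw [hw, hw']) (hmax w' hw' hV') i)
    · intro h1
      exact ⟨w, hw, hV, by rw [hu]; exact h1⟩
  have hsorted : ∀ (j j' : ℕ) (hj : j < s.2.length) (hj' : j' < s.2.length), j < j' →
      num s.2[j] < num s.2[j'] := fun j j' hj hj' h =>
    List.pairwise_iff_getElem.1 hs.sorted j j' hj hj' h
  have hLget : ∀ (j : ℕ) (hj : j < L.length), L[j] = f (bits (x, s.2[j + 1]'(by omega))) := by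
    intro j hj
    simp only [hL, qry, List.getElem_map, List.getElem_tail]
  refine ⟨by omega, fun y hy => ?_, fun y hy => ?_⟩
  · obtain ⟨j, hj, rfl⟩ := List.getElem_of_mem hy
    rw [List.length_take] at hj
    rw [List.getElem_take, hLget j (by omega), hf,
      hleft _ (hs.len _ (List.getElem_mem _)), ← hkw]
    rcases Nat.lt_or_ge (j + 1) k with h2 | h2
    · exact (hsorted _ _ _ hk h2).le
    · have h3 : j + 1 = k := by omega
      simp only [h3, le_refl]
  · obtain ⟨j, hj, rfl⟩ := List.getElem_of_mem hy
    rw [List.length_drop] at hj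
    rw [List.getElem_drop, hLget (k + j) (by omega), hf,
      hleft _ (hs.len _ (List.getElem_mem _)), ← hkw, not_le]
    exact hsorted _ _ hk _ (by omega)

theorem stepK_mem (hf : ∀ u, (f (bits (x, u)) ∈ A ↔ LeftW V.n W (x, u)))
    {s : Bool × ℕ × List (List Bool)} (hs : Shape V x M s.2) (hm : Mem (V.n x) (W x) s.2) {k : ℕ}
    (hk : M < s.2.2.length → ¬ Pattern A (qry f x s.2.2) k)
    (hok : (stepK f M x s k).1 = true) : Mem (V.n x) (W x) (stepK f M x s k).2 := by
  have hok' := (stepK_ok hok).2
  intro w hw hV hmax
  have hmem := hm w hw hV hmax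
  unfold stepK
  split_ifs with h1 h2
  · obtain ⟨k0, hk0, hk0w⟩ := List.getElem_of_mem hmem
    have hpat := pattern_idx hf hs hw hV hmax hk0 hk0w
    have hne : k0 ≠ k := by
      rintro rfl
      exact hk h1 hpat
    have hkl := hok' h1
    rw [qry_length] at hkl
    have hmin : min k (s.2.2.length - 1) = k := by omega
    simp only [hmin]
    rw [← hk0w, List.mem_append]
    rcases Nat.lt_or_ge k0 k with h3 | h3
    · left
      rw [List.mem_take_iff_getElem]
      exact ⟨k0, by omega, rfl⟩
    · right
      rw [List.mem_drop_iff_getElem]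
      exact ⟨k0 - (k + 1), by omega, by congr 1; omega⟩
  · exact hmem
  · have hr := hs.rem
    simp only
    rw [Clo.mem_ext]
    refine ⟨_, hmem, w[V.n x - s.2.1]'(by omega), ?_⟩
    rw [List.take_append_getElem]
    congr 1
    omega

/-- There is no witness: all queries are outside `A`. -/
theorem qry_not_mem (hf : ∀ u, (f (bits (x, u)) ∈ A ↔ LeftW V.n W (x, u)))
    (hx : ¬ ∃ w : List Bool, w.length = V.n x ∧ W x w) (C : List (List Bool)) :
    ∀ y ∈ qry f x C, y ∉ A := by
  intro y hy
  rw [qry, List.mem_map] at hy
  obtain ⟨u, -, rfl⟩ := hy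
  rw [hf]
  rintro ⟨w, h1, h2, -⟩
  exact hx ⟨w, h1, h2⟩

/-- The states of a run. -/
theorem iter_succ (K : List (List Bool) → ℕ → ℕ) (T : ℕ) (s : Bool × ℕ × List (List Bool)) :
    iter f M x K (T + 1) s = stepK f M x (iter f M x K T s)
      (K (qry f x (iter f M x K T s).2.2) T) := by
  rw [← foldl_iter, ← foldl_iter, List.range_succ, List.foldl_append]
  rfl

/-- The answer is the number of trues. -/
def cnt (_ : List (List Bool)) (w : List Bool) : ℕ := (w.filter id).length

theorem cnt_poly : Poly (fun p : List (List Bool) × List Bool => cnt p.1 p.2) := by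
  unfold cnt
  exact Poly.length (Poly.filter (l := fun p : List (List Bool) × List Bool => p.2)
    (p := fun _ b => b) (Poly.snd Poly.id) (Poly.snd Poly.id))

/-- The invariant during a run with correct answers. -/
theorem run_mem (hM : 1 ≤ M) (hf : ∀ u, (f (bits (x, u)) ∈ A ↔ LeftW V.n W (x, u)))
    {K : List (List Bool) → ℕ → ℕ} {s : Bool × ℕ × List (List Bool)} (hs : Shape V x M s.2)
    (hm : Mem (V.n x) (W x) s.2) (T : ℕ)
    (hK : ∀ t < T, M < (iter f M x K t s).2.2.length →
      ¬ Pattern A (qry f x (iter f M x K t s).2.2) (K (qry f x (iter f M x K t s).2.2) t))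
    (hok : (iter f M x K T s).1 = true) : Mem (V.n x) (W x) (iter f M x K T s).2 := by
  induction T with
  | zero => exact hm
  | succ T ih =>
    rw [iter_succ] at hok ⊢
    have h1 := ih (fun t ht => hK t (by omega)) (stepK_ok hok).1
    exact stepK_mem hf (iter_shape hM _ _ _ hs) h1 (hK T (by omega)) hok

/-- Answers from guesses depend on the blocks only. -/
theorem iter_congr {K K' : List (List Bool) → ℕ → ℕ} {s : Bool × ℕ × List (List Bool)} (T : ℕ)
    (h : ∀ (L : List (List Bool)) (t : ℕ), t < T → K L t = K' L t) :
    iter f M x K T s = iter f M x K' T s := by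
  induction T with
  | zero => rfl
  | succ T ih =>
    rw [iter_succ, iter_succ, ih (fun L t ht => h L t (by omega)), h _ T (by omega)]

/-- Good guesses exist if there is no witness. -/
theorem exists_guess {R : List (List Bool) → ℕ → Prop} {q : Polynomial ℕ}
    (hR : ∀ (L : List (List Bool)) (n : ℕ), (∀ x ∈ L, x.length ≤ n ∧ x ∉ A) →
      q.eval n ≤ L.length → ∃ j ≤ L.length, R L j)
    (hf : ∀ u, (f (bits (x, u)) ∈ A ↔ LeftW V.n W (x, u)))
    (hx : ¬ ∃ w : List Bool, w.length = V.n x ∧ W x w) {n b : ℕ} (hM : 1 ≤ M)
    (hn : ∀ u : List Bool, u.length ≤ V.n x → (f (bits (x, u))).length ≤ n)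
    (hq : q.eval n ≤ M) (hb : 2 * M ≤ b) {s : Bool × ℕ × List (List Bool)}
    (hs : Shape V x M s.2) (h0 : s.1 = true) (T : ℕ) :
    ∃ r : List Bool, r.length = T * b ∧
      (iter f M x (fun L t => cnt L (blk b r t)) T s).1 = true ∧
      ∀ t < T, M < (iter f M x (fun L t => cnt L (blk b r t)) t s).2.2.length →
        R (qry f x (iter f M x (fun L t => cnt L (blk b r t)) t s).2.2)
          (cnt (qry f x (iter f M x (fun L t => cnt L (blk b r t)) t s).2.2) (blk b r t)) := by
  induction T with
  | zero => exact ⟨[], by simp, h0, fun t ht => absurd ht (Nat.not_lt_zero _)⟩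
  | succ T ih =>
    obtain ⟨r, hr, h1, h2⟩ := ih
    have hsh := iter_shape (f := f) hM T (fun L t => cnt L (blk b r t)) s hs
    set st := iter f M x (fun L t => cnt L (blk b r t)) T s with hst
    obtain ⟨w, hw, hok, hRw⟩ : ∃ w : List Bool, w.length = b ∧
        (stepK f M x st (cnt (qry f x st.2.2) w)).1 = true ∧
          (M < st.2.2.length → R (qry f x st.2.2) (cnt (qry f x st.2.2) w)) := by
      by_cases hc : M < st.2.2.length
      · obtain ⟨j, hj, hRj⟩ := hR (qry f x st.2.2) n (fun y hy => by
          refine ⟨?_, qry_not_mem hf hx _ y hy⟩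
          rw [qry, List.mem_map] at hy
          obtain ⟨u, hu, rfl⟩ := hy
          refine hn u ?_
          rw [hsh.len u (List.mem_of_mem_tail hu)]
          omega) (by rw [qry_length]; omega)
        have hjb : j ≤ b := by
          rw [qry_length] at hj
          have := hsh.short
          omega
        have hcw : cnt (qry f x st.2.2) (List.replicate j true ++ List.replicate (b - j) false) =
            j := by
          unfold cnt
          simp [List.filter_append, List.filter_replicate]
        refine ⟨List.replicate j true ++ List.replicate (b - j) false, by simp; omega, ?_, ?_⟩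
        · rw [hcw]
          exact stepK_true h1 (fun _ => hj)
        · intro _
          rw [hcw]
          exact hRj
      · exact ⟨List.replicate b false, by simp, stepK_true h1 (fun h => absurd h hc),
          fun h => absurd h hc⟩
    have hblk : ∀ t < T, blk b (r ++ w) t = blk b r t := by
      intro t ht
      unfold blk
      have h3 : (t + 1) * b ≤ T * b := Nat.mul_le_mul_right b (by omega)
      rw [add_mul, one_mul] at h3
      rw [List.drop_append_of_le_length (by omega), List.take_append_of_le_length
        (by rw [List.length_drop]; omega)]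
    have hblkT : blk b (r ++ w) T = w := by
      unfold blk
      rw [← hr, List.drop_left' rfl, ← hw, List.take_length]
    have hit : ∀ t ≤ T, iter f M x (fun L t => cnt L (blk b (r ++ w) t)) t s =
        iter f M x (fun L t => cnt L (blk b r t)) t s := fun t ht =>
      iter_congr t (fun L t' ht' => by rw [hblk t' (by omega)])
    refine ⟨r ++ w, by rw [List.length_append, hr, hw]; ring, ?_, ?_⟩
    · rw [iter_succ, hit T le_rfl, hblkT]
      exact hok
    · intro t ht
      rw [hit t (by omega)]
      rcases Nat.lt_or_ge t T with h3 | h3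
      · rw [hblk t h3]
        exact h2 t h3
      · obtain rfl : t = T := by omega
        rw [hblkT]
        exact hRw

end Pool.Agent.H334R5.Ph
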