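import Pool.Agent.H334R5.Ph.Search
import Pool.Agent.H334R5.Ph.Basic
import Pool.Agent.H622R2.CoNP

/-!
# Refuting one threshold pattern of a `Σ_k`-hard set
-/

set_option autoImplicit false

namespace Pool.Agent.H334R5.Ph

open Pool.Agent.NPC
open Pool.Agent.H251R5.PQ (Ver padDec pad_poly pad_dec pad_length)
open Pool.Agent.H622R2 (poly_pairBits)
open Pool.Agent.H334R5.Clo (num ext)
open Pool.Agent.H334R5.Nd (qry stepK pot Pattern qry_length length_remove remove_sublist poly_qry
  poly_stepK stepK_pot stepK_ok stepK_true Shape stepK_shape iter foldl_iter iter_shape iter_rem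
  init_shape poly_run run blk ans)
open Pool.Agent.H334R5.Cnt (usz bits_poly fpoly_of_poly)

theorem poly_num {α : Type} [TEnc α] {l : α → List Bool} (hl : Poly l) :
    Poly (fun x => num (l x)) := by
  unfold num
  exact Poly.valBits (Poly.reverse hl)

/-- Witnesses of exact length. -/
def WW (R0 : Set (List Bool)) (x w : List Bool) : Prop :=
  ∃ l, padDec w = some l ∧ pairBits x l ∈ R0

theorem sig_ww (hC : TaskCase) {k : ℕ} {R0 : Set (List Bool)} (hR0 : Sig k R0ᶜ) :
    Sig k {z | ¬ WW R0 (unpair z).1 (unpair z).2} := by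
  have p1 : Poly (fun z : List Bool => padDec (unpair z).2) := pad_poly.comp (Poly.snd poly_unpair)
  have p2 : Poly (fun z : List Bool => pairBits (unpair z).1 ((padDec (unpair z).2).getD [])) :=
    poly_pairBits (Poly.fst poly_unpair)
      (Poly.optElim (o := fun z : List Bool => padDec (unpair z).2) (g := fun _ => [])
        (h := fun _ l => l) p1 (NPC.Poly.const _) (Poly.snd Poly.id) |>.congr fun z => by
          cases padDec (unpair z).2 <;> rfl)
  have h := hC k R0ᶜ Set.univ (fun z => (padDec (unpair z).2).isSome)
    (fun z => pairBits (unpair z).1 ((padDec (unpair z).2).getD [])) (fun z => z)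
    (Poly.isSome p1) p2 Poly.id hR0 (sig_univ_empty k).1
  convert h using 1
  ext z
  unfold WW
  simp only [Set.mem_setOf_eq, Set.mem_compl_iff, Set.mem_univ, and_true]
  cases hz : padDec (unpair z).2 with
  | none => simp
  | some l => simp

theorem exact_ww {L R0 : Set (List Bool)} {p0 : Polynomial ℕ}
    (hL : ∀ x, x ∈ L ↔ ∃ y : List Bool, y.length ≤ p0.eval x.length ∧ pairBits x y ∈ R0)
    (x : List Bool) :
    x ∈ L ↔ ∃ w : List Bool, w.length = p0.eval x.length + 1 ∧ WW R0 x w := by
  rw [hL x]
  constructor
  · rintro ⟨y, hy, h⟩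
    refine ⟨y ++ true :: List.replicate (p0.eval x.length - y.length) false, ?_, y, pad_dec _ _, h⟩
    simp only [List.length_append, List.length_cons, List.length_replicate]
    omega
  · rintro ⟨w, hw, l, hl, h⟩
    have h1 := pad_length w l hl
    exact ⟨l, by omega, h⟩

theorem sig_left (hC : TaskCase) {k : ℕ} {R0 : Set (List Bool)} {p0 : Polynomial ℕ}
    (hR0 : Sig k R0ᶜ) :
    Sig (k + 1) (lang (LeftW (fun x => p0.eval x.length + 1) (WW R0))) := by
  have hRW := sig_ww hC hR0
  set c : List Bool → Bool := fun v => (unbits (List Bool × List Bool) (unpair v).1).elim false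
    (fun t => decide ((unpair v).2.length = p0.eval t.1.length + 1) &&
      decide (num t.2 ≤ num ((unpair v).2.take t.2.length))) with hc
  set g : List Bool → List Bool := fun v => (unbits (List Bool × List Bool) (unpair v).1).elim []
    (fun t => pairBits t.1 (unpair v).2) with hg
  have pu : Poly (fun v : List Bool => unbits (List Bool × List Bool) (unpair v).1) :=
    poly_unbits.comp (Poly.fst poly_unpair)
  have py : Poly (fun p : List Bool × List Bool × List Bool => (unpair p.1).2) :=
    (Poly.snd poly_unpair).comp (Poly.fst Poly.id)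
  have pc : Poly c := by
    refine Poly.optElim (o := fun v : List Bool => unbits (List Bool × List Bool) (unpair v).1)
      (g := fun _ => false) (h := fun v t => decide ((unpair v).2.length =
        p0.eval t.1.length + 1) && decide (num t.2 ≤ num ((unpair v).2.take t.2.length)))
      pu (NPC.Poly.const _) ?_
    have h1 : Poly (fun p : List Bool × List Bool × List Bool => p.2.1) :=
      Poly.fst (Poly.snd Poly.id)
    have h2 : Poly (fun p : List Bool × List Bool × List Bool => p.2.2) :=
      Poly.snd (Poly.snd Poly.id)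
    exact Poly.and (Poly.decide_eq (Poly.length py)
      (UPoly.toPoly (UPoly.add (UPoly.eval (UPoly.length h1) p0) (UPoly.const 1))))
      (Poly.decide_le (poly_num h2) (poly_num (Clo.poly_take py (Poly.length h2))))
  have pg : Poly g := by
    refine Poly.optElim (o := fun v : List Bool => unbits (List Bool × List Bool) (unpair v).1)
      (g := fun _ => []) (h := fun v t => pairBits t.1 (unpair v).2) pu (NPC.Poly.const _) ?_
    exact poly_pairBits (Poly.fst (Poly.snd Poly.id)) py
  refine ⟨{v | c v = true ∧ WW R0 (unpair (g v)).1 (unpair (g v)).2}, p0 + 1, ?_, ?_⟩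
  · have h := hC k _ Set.univ c g g pc pg pg hRW (sig_univ_empty k).1
    convert h using 1
    ext v
    simp only [Set.mem_setOf_eq, Set.mem_compl_iff, Set.mem_univ, and_true]
    cases c v <;> simp
  · intro z
    rw [mem_lang_iff]
    constructor
    · rintro ⟨t, ht, w, hw, hWw, hle⟩
      have hz := bits_of_unbits ht
      refine ⟨w, ?_, ?_⟩
      · rw [hw, ← hz, bits_length]
        have e1 : t.1.length ≤ sz t := by
          obtain ⟨x, u⟩ := t
          have := length_lt_sz x
          rw [sz_pair]
          simp only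
          omega
        have e2 := eval_mono p0 e1
        simp only [Polynomial.eval_add, Polynomial.eval_one]
        omega
      · simp only [Set.mem_setOf_eq, hc, hg, unpair_pairBits, ht, Option.elim_some,
          Bool.and_eq_true, decide_eq_true_eq]
        exact ⟨⟨hw, hle⟩, hWw⟩
    · rintro ⟨w, -, h⟩
      simp only [Set.mem_setOf_eq, hc, hg, unpair_pairBits] at h
      cases ht : unbits (List Bool × List Bool) z with
      | none => rw [ht] at h; simp at h
      | some t =>
        rw [ht] at h
        simp only [Option.elim_some, Bool.and_eq_true, decide_eq_true_eq, unpair_pairBits] at h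
        exact ⟨t, rfl, w, h.1.1, h.2, h.1.2⟩

/-- The search for a witness. -/
theorem search_core (hC : TaskCase) (hAny : TaskAny) (hAll : TaskAll) (hEx : TaskEx)
    (hIncl : TaskIncl) {k : ℕ} {A : Set (List Bool)} {q : Polynomial ℕ}
    {R : List (List Bool) → ℕ → Prop} {L R0 : Set (List Bool)} {p0 : Polynomial ℕ}
    (hR0 : Sig k R0ᶜ)
    (hL0 : ∀ x, x ∈ L ↔ ∃ y : List Bool, y.length ≤ p0.eval x.length ∧ pairBits x y ∈ R0)
    (hA : Reduces (lang (LeftW (fun x => p0.eval x.length + 1) (WW R0))) A)
    (hR : SigRefuter (k + 1) A q R) : Sig (k + 1) Lᶜ := by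
  have un : UPoly (fun x : List Bool => p0.eval x.length + 1) :=
    UPoly.add (UPoly.eval (UPoly.length Poly.id) p0) (UPoly.const 1)
  set V : Ver := { n := fun x => p0.eval x.length + 1
                   V := fun _ _ => true
                   hn := un
                   hV := NPC.Poly.const _
                   pos := fun x => by omega } with hVdef
  have hLW : ∀ x, x ∈ L ↔ ∃ w : List Bool, w.length = V.n x ∧ WW R0 x w := exact_ww hL0
  obtain ⟨f, hf0, hfA⟩ := hA
  have pf : Poly (fun z : List Bool × List Bool => f (bits z)) :=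
    (PIso.poly_iff.2 hf0).comp bits_poly
  have hf : ∀ x u : List Bool, (f (bits (x, u)) ∈ A ↔ LeftW V.n (WW R0) (x, u)) := fun x u => by
    rw [← hfA, bits_mem_lang]
  -- the polynomials
  obtain ⟨qf, hqf⟩ := pf.sz_le
  set pV : Polynomial ℕ := p0 + 1 with hpV
  set nn : Polynomial ℕ := qf.comp (Polynomial.C 4 * Polynomial.X + Polynomial.C 4 * pV +
    Polynomial.C 3) with hnn
  set MM : Polynomial ℕ := q.comp nn + Polynomial.C 1 with hMM
  set bb : Polynomial ℕ := Polynomial.C 2 * MM with hbb
  set TT : Polynomial ℕ := pV * (MM + Polynomial.C 1) + Polynomial.C 2 with hTT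
  have eMM : ∀ k, MM.eval k = q.eval (nn.eval k) + 1 := fun k => by
    rw [hMM]; simp only [Polynomial.eval_add, Polynomial.eval_comp, Polynomial.eval_C]
  have ebb : ∀ k, bb.eval k = 2 * MM.eval k := fun k => by
    rw [hbb]; simp only [Polynomial.eval_mul, Polynomial.eval_C]
  have eTT : ∀ k, TT.eval k = pV.eval k * (MM.eval k + 1) + 2 := fun k => by
    rw [hTT]; simp only [Polynomial.eval_add, Polynomial.eval_mul, Polynomial.eval_C]
  have hVn : ∀ x : List Bool, V.n x ≤ pV.eval x.length := by
    intro x
    rw [hpV, Polynomial.eval_add, Polynomial.eval_one]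
  have hfn : ∀ x u : List Bool, u.length ≤ V.n x →
      (f (bits (x, u))).length ≤ nn.eval x.length := by
    intro x u hu
    have h1 := hqf (x, u)
    have h2 := length_lt_sz (f (bits (x, u)))
    have h3 : sz ((x, u) : List Bool × List Bool) ≤ 4 * x.length + 4 * pV.eval x.length + 3 := by
      have e1 := sz_listBool_le x
      have e2 := sz_listBool_le u
      have e3 := hVn x
      rw [sz_pair]
      omega
    have h4 := eval_mono qf h3
    rw [hnn, Polynomial.eval_comp]
    simp only [Polynomial.eval_add, Polynomial.eval_mul, Polynomial.eval_C, Polynomial.eval_X]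
    omega
  have hM1 : ∀ k, 1 ≤ MM.eval k := fun k => by rw [eMM]; omega
  -- the run
  set K : List Bool → List Bool → List (List Bool) → ℕ → ℕ := fun x r L t =>
    cnt L (blk (bb.eval x.length) r t) with hK
  set st : List Bool → List Bool → ℕ → Bool × ℕ × List (List Bool) := fun x r t =>
    iter f (MM.eval x.length) x (K x r) t (true, V.n x, [[]]) with hst
  have hshape : ∀ x r t, Shape V x (MM.eval x.length) (st x r t).2 := fun x r t =>
    iter_shape (hM1 _) _ _ _ (init_shape V x (hM1 _))
  have hrem : ∀ x r, (st x r (TT.eval x.length)).2.1 = 0 := by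
    intro x r
    refine iter_rem _ _ _ ?_
    unfold pot
    simp only [List.length_cons, List.length_nil]
    rw [eTT]
    have := Nat.mul_le_mul_right (MM.eval x.length + 1) (hVn x)
    omega
  -- the run is polynomial
  have pst : Poly (fun z : List Bool × ℕ =>
      st (unpair z.1).1 (unpair z.1).2 (min z.2 (TT.eval (unpair z.1).1.length))) := by
    have hx : Poly (fun z : List Bool × ℕ => (unpair z.1).1) :=
      (Poly.fst poly_unpair).comp (Poly.fst Poly.id)
    have uX : ∀ (P : Polynomial ℕ), UPoly (fun z : List Bool × ℕ =>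
        P.eval (unpair z.1).1.length) := fun P => (UPoly.length hx).eval P
    have hT : UPoly (fun z : List Bool × ℕ => min z.2 (TT.eval (unpair z.1).1.length)) :=
      UPoly.of_le (Poly.min (Poly.snd Poly.id) (uX TT).toPoly) (uX TT)
        (fun z => Nat.min_le_right _ _)
    have := poly_run pf V (K := fun z => K (unpair z.1).1 (unpair z.1).2) (by
      rw [hK]
      unfold blk
      have hb : Poly (fun p : (List Bool × ℕ) × List (List Bool) × ℕ =>
          bb.eval (unpair p.1.1).1.length) := (uX bb).toPoly.comp (Poly.fst Poly.id)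
      exact Poly.comp (g := fun p : List (List Bool) × List Bool => cnt p.1 p.2)
        (f := fun p : (List Bool × ℕ) × List (List Bool) × ℕ => (p.2.1,
          ((unpair p.1.1).2.drop (p.2.2 * bb.eval (unpair p.1.1).1.length)).take
            (bb.eval (unpair p.1.1).1.length))) cnt_poly (Poly.pair (Poly.fst (Poly.snd Poly.id))
        (Clo.poly_take (Clo.poly_drop ((Poly.snd poly_unpair).comp (Poly.fst (Poly.fst Poly.id)))
          (Poly.mul (Poly.snd (Poly.snd Poly.id)) hb)) hb)))
      hx (uX MM) hT (fun z => hM1 _)
    exact this.congr fun z => foldl_iter _ _ _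
  have pfin : Poly (fun z : List Bool => st (unpair z).1 (unpair z).2
      (TT.eval (unpair z).1.length)) := by
    have := Poly.comp (g := fun z : List Bool × ℕ =>
      st (unpair z.1).1 (unpair z.1).2 (min z.2 (TT.eval (unpair z.1).1.length)))
      (f := fun z : List Bool => (z, TT.eval (unpair z).1.length)) pst
      (Poly.pair Poly.id (UPoly.toPoly ((UPoly.length (Poly.fst poly_unpair)).eval TT)))
    exact this.congr fun z => by simp
  -- the first condition
  set G1 : Set (List Bool) := {z | (decide ((unpair z).2.length = TT.eval (unpair z).1.length *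
      bb.eval (unpair z).1.length) && (st (unpair z).1 (unpair z).2
        (TT.eval (unpair z).1.length)).1) = true ∧ z ∈ Set.univ} with hG1
  have hG1s : Sig (k + 1) G1 := by
    refine sig_and hC ?_ Poly.id (sig_univ_empty (k + 1)).1
    refine Poly.and (Poly.decide_eq (Poly.length (Poly.snd poly_unpair)) (Poly.mul
      (UPoly.toPoly ((UPoly.length (Poly.fst poly_unpair)).eval TT))
      (UPoly.toPoly ((UPoly.length (Poly.fst poly_unpair)).eval bb)))) (Poly.fst pfin)
  -- the second condition
  set h2 : List Bool → ℕ → List Bool := fun z t =>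
    if MM.eval (unpair z).1.length < (st (unpair z).1 (unpair z).2
      (min t (TT.eval (unpair z).1.length))).2.2.length then
      bits ((qry f (unpair z).1 (st (unpair z).1 (unpair z).2
        (min t (TT.eval (unpair z).1.length))).2.2,
        cnt [] (blk (bb.eval (unpair z).1.length) (unpair z).2 t)) : List (List Bool) × ℕ)
      else [] with hh2
  have ph2 : Poly (fun p : List Bool × ℕ => h2 p.1 p.2) := by
    have hx : Poly (fun z : List Bool × ℕ => (unpair z.1).1) :=
      (Poly.fst poly_unpair).comp (Poly.fst Poly.id)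
    have uX : ∀ (P : Polynomial ℕ), UPoly (fun z : List Bool × ℕ =>
        P.eval (unpair z.1).1.length) := fun P => (UPoly.length hx).eval P
    have hCC : Poly (fun z : List Bool × ℕ => (st (unpair z.1).1 (unpair z.1).2
      (min z.2 (TT.eval (unpair z.1).1.length))).2.2) := Poly.snd (Poly.snd pst)
    rw [hh2]
    refine Poly.ite (Poly.decide_lt (uX MM).toPoly (Poly.length hCC)) ?_ (NPC.Poly.const _)
    refine Poly.comp (g := fun z : List (List Bool) × ℕ => bits z) bits_poly
      (Poly.pair (poly_qry pf hx hCC) ?_)
    unfold blk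
    exact Poly.comp (g := fun p : List (List Bool) × List Bool => cnt p.1 p.2)
      (f := fun p : List Bool × ℕ => ([], ((unpair p.1).2.drop (p.2 *
        bb.eval (unpair p.1).1.length)).take (bb.eval (unpair p.1).1.length))) cnt_poly
      (Poly.pair (NPC.Poly.const _) (Clo.poly_take (Clo.poly_drop ((Poly.snd poly_unpair).comp
        (Poly.fst Poly.id)) (Poly.mul (Poly.snd Poly.id) (uX bb).toPoly)) (uX bb).toPoly))
  set U : Set (List Bool) := {w | decide (w = []) = true ∨
    w ∈ lang (fun p : List (List Bool) × ℕ => R p.1 p.2)} with hU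
  have hUs : Sig (k + 1) U :=
    sig_or hC (Poly.decide_eq Poly.id (NPC.Poly.const _)) Poly.id hR.sig
  have hG2s := hAll hC hAny (k + 1) U (fun z => TT.eval (unpair z).1.length) h2
    ((UPoly.length (Poly.fst poly_unpair)).eval TT) ph2 hUs
  -- the third condition
  set h3 : List Bool → ℕ → List Bool := fun z i => pairBits (unpair z).1
    ((st (unpair z).1 (unpair z).2 (TT.eval (unpair z).1.length)).2.2.getD i []) with hh3
  have ph3 : Poly (fun p : List Bool × ℕ => h3 p.1 p.2) := by
    rw [hh3]
    exact poly_pairBits ((Poly.fst poly_unpair).comp (Poly.fst Poly.id))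
      (Poly.getD ((Poly.snd (Poly.snd pfin)).comp (Poly.fst Poly.id)) (Poly.snd Poly.id)
        (NPC.Poly.const _))
  have hG3s := hAll hC hAny (k + 1) {z | ¬ WW R0 (unpair z).1 (unpair z).2}
    (fun z => (st (unpair z).1 (unpair z).2 (TT.eval (unpair z).1.length)).2.2.length) h3
    (UPoly.length (Poly.snd (Poly.snd pfin))) ph3 ((hIncl hC k _).2 (sig_ww hC hR0))
  have hS := hEx hC k _ (TT * bb) (sig_inter hC hAny hAll hG1s (sig_inter hC hAny hAll hG2s hG3s))
  convert hS using 1
  ext x
  simp only [Set.mem_compl_iff, Set.mem_inter_iff, Set.mem_setOf_eq, hG1, unpair_pairBits, hh2,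
    hh3, hU, Set.mem_univ, and_true, Bool.and_eq_true, decide_eq_true_eq]
  have hlen : (TT * bb).eval x.length = TT.eval x.length * bb.eval x.length := by
    rw [Polynomial.eval_mul]
  constructor
  · intro hx
    rw [hLW x] at hx
    obtain ⟨r, hr, hr1, hr2⟩ := exists_guess (b := bb.eval x.length) hR.complete (hf x) hx
      (hM1 x.length) (hfn x) (M := MM.eval x.length) (by rw [eMM]; omega)
      (by rw [ebb]) (s := (true, V.n x, [[]])) (init_shape V x (hM1 _)) rfl (TT.eval x.length)
    refine ⟨r, by rw [hlen, hr], ⟨hr, hr1⟩, ?_, ?_⟩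
    · intro t ht
      rw [Nat.min_eq_left ht.le]
      split_ifs with h4
      · right
        rw [bits_mem_lang]
        exact hr2 t ht h4
      · exact Or.inl rfl
    · intro i hi hW
      refine hx ⟨_, ?_, hW⟩
      have h5 := (hshape x r (TT.eval x.length)).len _ (List.getElem_mem hi)
      rw [List.getD_eq_getElem _ _ hi, h5, hrem]
      rfl
  · rintro ⟨r, -, ⟨hr, hok⟩, hall, hno⟩ hx
    obtain ⟨w, ⟨hw, hVw⟩, hmax⟩ : ∃ w : List Bool, (w.length = V.n x ∧ WW R0 x w) ∧
        ∀ w' : List Bool, (w'.length = V.n x ∧ WW R0 x w') → num w' ≤ num w := by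
      have hfinite : {w : List Bool | w.length = V.n x ∧ WW R0 x w}.Finite :=
        (List.finite_length_eq Bool (V.n x)).subset (fun w hw => hw.1)
      obtain ⟨w, hw, hmax⟩ := Set.exists_max_image _ num hfinite ((hLW x).1 hx)
      exact ⟨w, hw, fun w' hw' => hmax w' hw'⟩
    have hmem : Mem (V.n x) (WW R0 x) (st x r (TT.eval x.length)).2 := by
      refine run_mem (hM1 _) (hf x) (init_shape V x (hM1 _)) (fun w _ _ _ => by simp) _ ?_ hok
      intro t ht hlt
      have h4 := hall t ht
      rw [Nat.min_eq_left ht.le, if_pos hlt] at h4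
      rcases h4 with h4 | h4
      · exact absurd (congrArg List.length h4) (by
          rw [bits_length]
          exact (sz_pos _).ne')
      · rw [bits_mem_lang] at h4
        exact hR.sound _ _ h4
    have h5 := hmem w hw hVw (fun w' h h' => hmax w' ⟨h, h'⟩)
    rw [hrem, Nat.sub_zero, ← hw, List.take_length] at h5
    obtain ⟨i, hi, hiw⟩ := List.getElem_of_mem h5
    refine hno i hi ?_
    rw [List.getD_eq_getElem _ _ hi, hiw]
    exact hVw

theorem taskSearchSig : TaskSearchSig := by
  intro hC hAny hAll hEx hIncl k A q R hA hR L hL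
  obtain ⟨R0, p0, hR0, hL0⟩ := hL
  exact search_core hC hAny hAll hEx hIncl hR0 hL0 (hA _ (sig_left hC hR0)) hR

end Pool.Agent.H334R5.Ph
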