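import Pool.Agent.H334R5.Ph.Defs

/-!
# Closure properties of the levels of the polynomial hierarchy: task statements
-/

set_option autoImplicit false

namespace Pool.Agent.H334R5.Ph

open Pool.Agent.NPC
open Pool.Agent.H334R5.Ps (Mach)

/-- TASK Case. -/
def TaskCase : Prop := ∀ (k : ℕ) (L₁ L₂ : Set (List Bool)) (c : List Bool → Bool)
  (f g : List Bool → List Bool), Poly c → Poly f → Poly g → Sig k L₁ → Sig k L₂ →
  Sig k {x | (c x = true ∧ f x ∈ L₁) ∨ (c x = false ∧ g x ∈ L₂)}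

/-- TASK Any. -/
def TaskAny : Prop := TaskCase → ∀ (k : ℕ) (L : Set (List Bool)) (T : List Bool → ℕ)
  (h : List Bool → ℕ → List Bool), UPoly T → Poly (fun p : List Bool × ℕ => h p.1 p.2) →
  Sig k L → Sig k {x | ∃ t < T x, h x t ∈ L}

/-- TASK All. -/
def TaskAll : Prop := TaskCase → TaskAny → ∀ (k : ℕ) (L : Set (List Bool)) (T : List Bool → ℕ)
  (h : List Bool → ℕ → List Bool), UPoly T → Poly (fun p : List Bool × ℕ => h p.1 p.2) →
  Sig k L → Sig k {x | ∀ t < T x, h x t ∈ L}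

/-- TASK Ex. -/
def TaskEx : Prop := TaskCase → ∀ (k : ℕ) (L : Set (List Bool)) (p : Polynomial ℕ),
  Sig (k + 1) L →
  Sig (k + 1) {x | ∃ y : List Bool, y.length ≤ p.eval x.length ∧ pairBits x y ∈ L}

/-- TASK Incl. -/
def TaskIncl : Prop := TaskCase → ∀ (k : ℕ) (L : Set (List Bool)),
  (Sig k Lᶜ → Sig (k + 1) L) ∧ (Sig k L → Sig (k + 1) L)

/-- TASK MachSig. -/
def TaskMachSig : Prop := TaskCase → TaskAny → TaskAll → TaskEx → TaskIncl →
  ∀ (k : ℕ) (A L : Set (List Bool)) (q : Polynomial ℕ) (R : List (List Bool) → ℕ → Prop),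
    SigRefuter2 (k + 1) A q R → Nonempty (Mach A L q) → Sig (k + 1) L

/-- TASK SearchSig. -/
def TaskSearchSig : Prop := TaskCase → TaskAny → TaskAll → TaskEx → TaskIncl →
  ∀ (k : ℕ) (A : Set (List Bool)) (q : Polynomial ℕ) (R : List (List Bool) → ℕ → Prop),
    SigHard (k + 1) A → SigRefuter (k + 1) A q R →
      ∀ L : Set (List Bool), Sig (k + 1) L → Sig (k + 1) Lᶜ

end Pool.Agent.H334R5.Ph
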